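import Pool.Agent.Y358.MM.Disc

/-!
The sequences for the version with discs: no zeros with `4 D ≤ ‖q‖`.
-/

set_option autoImplicit false

namespace Pool.Agent.Y358.MM

open Module Submodule

lemma exp_08 : Real.exp 0.8 ≤ 2.2256 := by
  have h4 := Real.exp_bound' (x := 0.8) (by norm_num) (by norm_num) (n := 8) (by norm_num)
  refine h4.trans ?_
  norm_num [Finset.sum_range_succ, Nat.factorial]

/-- the growth factor -/
noncomputable def KG (D : ℕ) : ℝ := 1 + 0.8 / D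

lemma one_le_KG (D : ℕ) : 1 ≤ KG D := by
  unfold KG
  have : (0 : ℝ) ≤ 0.8 / D := by positivity
  linarith

lemma KG_pow {D : ℕ} (hD : 1 ≤ D) : KG D ^ D ≤ 2.2256 := by
  have hD0 : (0 : ℝ) < D := by exact_mod_cast hD
  refine le_trans ?_ exp_08
  have h2 : KG D ≤ Real.exp (0.8 / D) := by
    have := Real.add_one_le_exp (0.8 / (D : ℝ))
    unfold KG
    linarith
  calc KG D ^ D ≤ Real.exp (0.8 / D) ^ D :=
        pow_le_pow_left₀ (by linarith [one_le_KG D]) h2 D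
    _ = Real.exp 0.8 := by
        rw [← Real.exp_nat_mul]
        congr 1
        field_simp

lemma sum_KG {D : ℕ} (hD : 1 ≤ D) : ∑ i ∈ Finset.range D, KG D ^ i ≤ 1.532 * D := by
  have hD0 : (0 : ℝ) < D := by exact_mod_cast hD
  have h1 := KG_pow hD
  have h2 : (∑ i ∈ Finset.range D, KG D ^ i) * (KG D - 1) = KG D ^ D - 1 :=
    geom_sum_mul (KG D) D
  have h3 : KG D - 1 = 0.8 / D := by unfold KG; ring
  rw [h3] at h2
  have h4 : (∑ i ∈ Finset.range D, KG D ^ i) = (KG D ^ D - 1) * D / 0.8 := by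
    rw [← h2]
    field_simp
  rw [h4, div_le_iff₀ (by norm_num)]
  nlinarith

lemma exists_xi {D : ℕ} (hD : 1 ≤ D) {c : ℝ} (hc : 0 ≤ c) (ρ : ℝ) (hρ : 0 < ρ) :
    ∃ ξ : ℝ, 0 ≤ ξ ∧ ξ ≤ 1 ∧ 1 - ξ = 1 / (2 * ρ) * c * ξ ^ D := by
  have hcont : ContinuousOn (fun ξ : ℝ => ξ + 1 / (2 * ρ) * c * ξ ^ D) (Set.Icc 0 1) := by
    fun_prop
  have h0 := intermediate_value_Icc (zero_le_one (α := ℝ)) hcont
  have h1 : (1 : ℝ) ∈ Set.Icc ((fun ξ : ℝ => ξ + 1 / (2 * ρ) * c * ξ ^ D) 0)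
      ((fun ξ : ℝ => ξ + 1 / (2 * ρ) * c * ξ ^ D) 1) := by
    constructor
    · simp [Nat.one_le_iff_ne_zero.1 hD]
    · have : 0 ≤ 1 / (2 * ρ) * c := by positivity
      simp only [one_pow, mul_one]
      linarith
  obtain ⟨ξ, hξ, hξ2⟩ := h0 h1
  refine ⟨ξ, hξ.1, hξ.2, ?_⟩
  simp only at hξ2
  linarith

lemma norm_sub_pos_part {u : ℂ} (hu : ‖u‖ = 1) :
    ‖u - (max u.re 0 : ℝ)‖ ^ 2 = 1 - (max u.re 0) ^ 2 := by
  have h1 : u.re ^ 2 + u.im ^ 2 = 1 := by
    have := Complex.sq_norm u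
    rw [hu, Complex.normSq_apply] at this
    nlinarith
  rw [Complex.sq_norm, Complex.normSq_apply]
  have e1 : (u - (max u.re 0 : ℝ)).re = u.re - max u.re 0 := by simp
  have e2 : (u - (max u.re 0 : ℝ)).im = u.im := by simp
  rw [e1, e2]
  rcases le_total u.re 0 with h | h
  · rw [max_eq_right h]
    nlinarith
  · rw [max_eq_left h]
    nlinarith

/-- The numerical inequality. -/
lemma num_ineq {c m A : ℝ} (hc0 : 0 ≤ c) (hc1 : c ≤ 1) (hm0 : 0 ≤ m) (hm : m ^ 2 = 1 - c ^ 2)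
    (hA : A * (2 + c) = 1 + m) : c + 0.532 * A + c * max 0 (A - c) / 5.6 ≤ 1.2 := by
  have hm1 : m ≤ 1 := by nlinarith
  have hA0 : 0 < A := by
    by_contra h
    push Not at h
    nlinarith
  have hA1 : A ≤ 1 := by
    by_contra h
    push Not at h
    nlinarith
  rcases le_or_gt A c with h | h
  · rw [max_eq_left (by linarith)]
    have h1 : m ≤ 2.5 * m ^ 2 + 0.1 := by nlinarith [sq_nonneg (m - 0.2)]
    have h2 : (c + 0.532 * A) * (2 + c) ≤ 1.2 * (2 + c) := by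
      have : (c + 0.532 * A) * (2 + c) = c * (2 + c) + 0.532 * (A * (2 + c)) := by ring
      rw [this, hA]
      nlinarith
    have h3 := le_of_mul_le_mul_right h2 (by linarith)
    simpa using h3
  · rw [max_eq_right (by linarith)]
    have h1 : c * (A - c) ≤ 0.25 := by nlinarith [sq_nonneg (A - 2 * c)]
    have h2 : c < 0.74 := by
      by_contra h3
      push Not at h3
      nlinarith
    have h4 : (c + 0.532 * A) * (2 + c) ≤ 1.155 * (2 + c) := by
      have : (c + 0.532 * A) * (2 + c) = c * (2 + c) + 0.532 * (A * (2 + c)) := by ring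
      rw [this, hA]
      nlinarith
    have h3 := le_of_mul_le_mul_right h4 (by linarith)
    have h5 : c * (A - c) / 5.6 ≤ 0.045 := by
      rw [div_le_iff₀ (by norm_num)]
      linarith
    linarith

variable {K W ι : Type*} [Field K] [AddCommGroup W] [Module K W] [FiniteDimensional K W]
  [DecidableEq ι]

/-- **Zero-free region, `4 D`.** -/
theorem config_four (P : Set (W →ₗ[K] K)) (a : ι → W) (D : ℕ) (hD : 1 ≤ D) (q : ℂ)
    (hq : 4 * (D : ℝ) ≤ ‖q‖) (V : Submodule K W)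
    (E : Finset ι) (hE : ∀ j ∈ E, a j ∈ V) (hE0 : ∀ j ∈ E, a j ≠ 0)
    (hP : ∀ u ∈ V, u ≠ 0 → ∃ φ ∈ P, φ u ≠ 0)
    (hk : ∀ φ ∈ P, ({j ∈ (E : Set ι) | φ (a j) ≠ 0}).ncard ≤ D + 1) :
    ∑ X ∈ E.powerset, (-1 : ℂ) ^ X.card *
      q ^ (finrank K V - finrank K ↥(span K (a '' (X : Set ι)))) ≠ 0 := by
  have hD0 : (1 : ℝ) ≤ D := by exact_mod_cast hD
  have hq0 : (0 : ℝ) < ‖q‖ := by linarith
  rw [← T_eq_sum' q (finrank K V) a E]
  -- the direction
  set u : ℂ := (starRingEnd ℂ) q / ‖q‖ with hu_def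
  have hq0' : (‖q‖ : ℂ) ≠ 0 := by exact_mod_cast hq0.ne'
  have hu : ‖u‖ = 1 := by
    rw [hu_def, norm_div, RCLike.norm_conj, Complex.norm_real, norm_norm, div_self hq0.ne']
  have huq : u * q = (‖q‖ : ℂ) := by
    rw [hu_def, div_mul_eq_mul_div, mul_comm, Complex.mul_conj, Complex.normSq_eq_norm_sq]
    push_cast
    field_simp
  set c : ℝ := max u.re 0 with hc_def
  set m : ℝ := ‖u - (c : ℂ)‖ with hm_def
  have hc0 : 0 ≤ c := le_max_right _ _
  have hc1 : c ≤ 1 := by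
    apply max_le _ zero_le_one
    calc u.re ≤ ‖u‖ := Complex.re_le_norm u
      _ = 1 := hu
  have hm0 : 0 ≤ m := norm_nonneg _
  have hm : m ^ 2 = 1 - c ^ 2 := norm_sub_pos_part hu
  have hm1 : m ≤ 1 := by nlinarith
  set A : ℝ := (1 + m) / (2 + c) with hA_def
  have hA : A * (2 + c) = 1 + m := by
    rw [hA_def]
    field_simp
  have hA0 : 0 ≤ A := by positivity
  have hA1 : A ≤ 1 := by
    rw [hA_def, div_le_one (by linarith)]
    linarith
  set ρ : ℝ := 2.8 * D with hρ_def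
  have hρ : 0 < ρ := by positivity
  obtain ⟨ξ, hξ0, hξ1, hξ⟩ := exists_xi hD hc0 ρ hρ
  have hK1 := one_le_KG D
  have hKD := KG_pow hD
  have hsumK := sum_KG hD
  set k := KG D with hk_def
  have hKs : k - 1 = 0.8 / D := by rw [hk_def]; unfold KG; ring
  have hξp : ∀ s : ℕ, ξ ^ s ≤ 1 := fun s => pow_le_one₀ hξ0 hξ1
  have hξn : ∀ s : ℕ, 0 ≤ ξ ^ s := fun s => pow_nonneg hξ0 s
  have hkp : ∀ s : ℕ, 1 ≤ k ^ s := fun s => one_le_pow₀ hK1
  have hy : ∀ s : ℕ, 0 ≤ A * (k ^ s - ξ ^ s) := fun s =>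
    mul_nonneg hA0 (by linarith [hξp s, hkp s])
  have hz : ∀ s : ℕ, max 0 (ξ ^ s * u.re + A * (k ^ s - ξ ^ s)) ≤
      ξ ^ s * c + A * (k ^ s - ξ ^ s) := by
    intro s
    apply max_le
    · have := mul_nonneg (hξn s) hc0
      linarith [hy s]
    · have := mul_le_mul_of_nonneg_left (le_max_left u.re 0) (hξn s)
      linarith
  refine (mainD q u hu huq (fun s => ξ ^ s) (fun s => A * (k ^ s - ξ ^ s)) ρ D (by simp)
    (by simp) hξn hy hρ ?_ ?_ ?_ P (finrank K V) V (E.toList.map a) [] rfl ?_ ?_ hP ?_).ne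
  · -- the sum
    have h1 : ∑ i ∈ Finset.range D, max 0 (ξ ^ i * u.re + A * (k ^ i - ξ ^ i)) ≤
        ∑ i ∈ Finset.range D, (c - A + c * max 0 (A - c) / 5.6 + A * k ^ i) := by
      refine Finset.sum_le_sum fun i hi => (hz i).trans ?_
      have hi' : i ≤ D := (Finset.mem_range.1 hi).le
      have h2 : ξ ^ D ≤ ξ ^ i := pow_le_pow_of_le_one hξ0 hξ1 hi'
      have h3 : 1 - c / 5.6 ≤ ξ ^ D := by
        have h4 : 1 + (D : ℝ) * (ξ - 1) ≤ (1 + (ξ - 1)) ^ D :=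
          one_add_mul_le_pow (by linarith) D
        have h5 : 1 + (ξ - 1) = ξ := by ring
        rw [h5] at h4
        have h6 : (D : ℝ) * (ξ - 1) = -(c / 5.6 * ξ ^ D) := by
          have : ξ - 1 = -(1 / (2 * ρ) * c * ξ ^ D) := by linarith
          rw [this, hρ_def]
          field_simp
          ring
        have h7 : c / 5.6 * ξ ^ D ≤ c / 5.6 :=
          mul_le_of_le_one_right (by positivity) (hξp D)
        linarith
      have h8 := hξp i
      rcases le_total A c with h | h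
      · rw [max_eq_left (by linarith : A - c ≤ 0)]
        have h9 : ξ ^ i * (c - A) ≤ 1 * (c - A) :=
          mul_le_mul_of_nonneg_right h8 (by linarith)
        have e1 : ξ ^ i * c + A * (k ^ i - ξ ^ i) = ξ ^ i * (c - A) + A * k ^ i := by ring
        rw [e1, mul_zero, zero_div]
        linarith
      · rw [max_eq_right (by linarith : 0 ≤ A - c)]
        have h9 : (1 - c / 5.6) * (A - c) ≤ ξ ^ i * (A - c) :=
          mul_le_mul_of_nonneg_right (by linarith) (by linarith)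
        have e1 : ξ ^ i * c + A * (k ^ i - ξ ^ i) = A * k ^ i - ξ ^ i * (A - c) := by ring
        have e2 : (1 - c / 5.6) * (A - c) = (A - c) - c * (A - c) / 5.6 := by ring
        rw [e1]
        linarith
    rw [Finset.sum_add_distrib, Finset.sum_const, Finset.card_range, nsmul_eq_mul,
      ← Finset.mul_sum] at h1
    have h2 := mul_le_mul_of_nonneg_left hsumK hA0
    have h3 := mul_le_mul_of_nonneg_right (num_ineq hc0 hc1 hm0 hm hA) (by linarith : (0:ℝ) ≤ D)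
    show ρ ≤ ‖q‖ - ∑ i ∈ Finset.range D, max 0 (ξ ^ i * u.re + A * (k ^ i - ξ ^ i))
    rw [hρ_def]
    nlinarith
  · show max 0 (ξ ^ D * u.re + A * (k ^ D - ξ ^ D)) < ρ
    refine lt_of_le_of_lt (hz D) ?_
    have h1 : ξ ^ D * (c - A) ≤ 1 - A := by
      have h2 : ξ ^ D * (c - A) ≤ ξ ^ D * (1 - A) :=
        mul_le_mul_of_nonneg_left (by linarith) (hξn D)
      have h3 : ξ ^ D * (1 - A) ≤ 1 * (1 - A) :=
        mul_le_mul_of_nonneg_right (hξp D) (by linarith)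
      linarith
    have h4 : A * k ^ D ≤ A * 2.2256 := mul_le_mul_of_nonneg_left hKD hA0
    have h5 : ρ ≥ 2.8 := by rw [hρ_def]; linarith
    nlinarith
  · intro s
    show ‖((ξ ^ (s + 1) : ℝ) - (ξ ^ s : ℝ) : ℂ) + (u / (2 * ρ)) * (ξ ^ (s + D) : ℝ)‖ +
      1 / (2 * ρ) * ξ ^ (s + D) + A * (k ^ (s + D) - ξ ^ (s + D)) / ρ ≤
      A * (k ^ (s + 1) - ξ ^ (s + 1)) - A * (k ^ s - ξ ^ s)
    have h1 : ξ ^ (s + 1) - ξ ^ s = -(1 / (2 * ρ) * c * ξ ^ (s + D)) := by
      have : ξ ^ (s + 1) - ξ ^ s = -(ξ ^ s * (1 - ξ)) := by ring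
      rw [this, hξ, pow_add]
      ring
    have h2 : ((ξ ^ (s + 1) : ℝ) - (ξ ^ s : ℝ) : ℂ) + (u / (2 * ρ)) * (ξ ^ (s + D) : ℝ) =
        ((1 / (2 * ρ) * ξ ^ (s + D) : ℝ) : ℂ) * (u - (c : ℂ)) := by
      rw [← Complex.ofReal_sub, h1]
      push_cast
      ring
    have h3 : ‖((ξ ^ (s + 1) : ℝ) - (ξ ^ s : ℝ) : ℂ) + (u / (2 * ρ)) * (ξ ^ (s + D) : ℝ)‖ =
        1 / (2 * ρ) * ξ ^ (s + D) * m := by
      rw [h2, norm_mul, Complex.norm_real, Real.norm_of_nonneg (by positivity)]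
    rw [h3]
    have h4 : A * (k ^ (s + 1) - ξ ^ (s + 1)) - A * (k ^ s - ξ ^ s) =
        A * (k ^ s * (k - 1)) + A * (1 / (2 * ρ) * c * ξ ^ (s + D)) := by
      have : A * (k ^ (s + 1) - ξ ^ (s + 1)) - A * (k ^ s - ξ ^ s) =
        A * (k ^ s * (k - 1)) - A * (ξ ^ (s + 1) - ξ ^ s) := by ring
      rw [this, h1]
      ring
    rw [h4]
    have h5 : k ^ (s + D) / ρ ≤ k ^ s * (k - 1) := by
      rw [pow_add, mul_div_assoc]
      apply mul_le_mul_of_nonneg_left _ (by positivity)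
      rw [hKs, hρ_def, div_le_div_iff₀ (by positivity) (by positivity)]
      nlinarith
    have h6 := mul_le_mul_of_nonneg_left h5 hA0
    have h7 : 1 / (2 * ρ) * ξ ^ (s + D) * m + 1 / (2 * ρ) * ξ ^ (s + D) +
        A * (k ^ (s + D) - ξ ^ (s + D)) / ρ =
        A * (k ^ (s + D) / ρ) + (1 / (2 * ρ) * ξ ^ (s + D)) * (1 + m - 2 * A) := by
      field_simp
      ring
    rw [h7, ← hA]
    have h8 : A * (2 + c) - 2 * A = A * c := by ring
    rw [h8]
    have h9 : A * (1 / (2 * ρ) * c * ξ ^ (s + D)) = (1 / (2 * ρ) * ξ ^ (s + D)) * (A * c) := by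
      ring
    rw [h9]
    linarith
  · intro x hx
    obtain ⟨j, hj, rfl⟩ := List.mem_map.1 hx
    exact hE j (Finset.mem_toList.1 hj)
  · intro x hx
    obtain ⟨j, hj, rfl⟩ := List.mem_map.1 hx
    exact hE0 j (Finset.mem_toList.1 hj)
  · intro φ hφ p hp
    rw [countP_map_toList a E φ p hp, List.countP_nil, add_zero]
    exact hk φ hφ

end Pool.Agent.Y358.MM
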