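import Pool.Agent.Y358.MM.Real

/-!
The sequences for the real version: positivity for `q ≥ 3.79 D`.
-/

set_option autoImplicit false

namespace Pool.Agent.Y358.MM

open Module Submodule

/-- the upper bounds -/
noncomputable def US (D : ℕ) (s : ℕ) : ℝ :=
  1 + 0.1799 * (Real.exp (1 / (D : ℝ)) ^ (s + 1 - D) - 1)

/-- the lower bounds -/
noncomputable def MS (D : ℕ) (ρ : ℝ) (s : ℕ) : ℝ :=
  -1 + (∑ j ∈ Finset.range s, US D (j + D)) / ρ

section

variable {D : ℕ} (hD : 1 ≤ D)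

include hD

lemma one_le_K : 1 ≤ Real.exp (1 / (D : ℝ)) := Real.one_le_exp (by positivity)

lemma K_sub : 1 / (D : ℝ) ≤ Real.exp (1 / (D : ℝ)) - 1 := by
  have := Real.add_one_le_exp (1 / (D : ℝ))
  linarith

lemma K_pow_D : Real.exp (1 / (D : ℝ)) ^ D = Real.exp 1 := by
  have hD0 : (0 : ℝ) < D := by exact_mod_cast hD
  rw [← Real.exp_nat_mul]
  congr 1
  field_simp

lemma US_mono : Monotone (US D) := by
  intro i j hij
  unfold US
  have h1 : Real.exp (1 / (D : ℝ)) ^ (i + 1 - D) ≤ Real.exp (1 / (D : ℝ)) ^ (j + 1 - D) :=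
    pow_le_pow_right₀ (one_le_K hD) (by omega)
  linarith

lemma US_small {s : ℕ} (hs : s + 1 ≤ D) : US D s = 1 := by
  unfold US
  have : s + 1 - D = 0 := by omega
  rw [this]
  norm_num

lemma US_large (j : ℕ) : US D (j + D) = 1 + 0.1799 * (Real.exp (1 / (D : ℝ)) ^ (j + 1) - 1) := by
  unfold US
  have : j + D + 1 - D = j + 1 := by omega
  rw [this]

lemma sum_geom_le (N : ℕ) : ∑ j ∈ Finset.range N, Real.exp (1 / (D : ℝ)) ^ (j + 1) ≤
    Real.exp (1 / (D : ℝ)) * D * (Real.exp (1 / (D : ℝ)) ^ N - 1) := by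
  have hD0 : (0 : ℝ) < D := by exact_mod_cast hD
  set K := Real.exp (1 / (D : ℝ)) with hK
  have h1 := one_le_K hD
  have h2 := K_sub hD
  rw [← hK] at h1 h2
  have h3 : 1 ≤ D * (K - 1) := by
    have := mul_le_mul_of_nonneg_left h2 hD0.le
    rwa [mul_one_div_cancel hD0.ne'] at this
  induction N with
  | zero => simp
  | succ N ih =>
    rw [Finset.sum_range_succ]
    have h4 : K ^ (N + 1) ≤ K ^ (N + 1) * (D * (K - 1)) :=
      le_mul_of_one_le_right (by positivity) h3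
    have h5 : K * D * (K ^ (N + 1) - 1) = K * D * (K ^ N - 1) + K ^ (N + 1) * (D * (K - 1)) := by
      rw [pow_succ]
      ring
    linarith

lemma MS_le {ρ : ℝ} (hρ : 0 < ρ) (N : ℕ) : MS D ρ N ≤ -1 +
    (0.8201 * N + 0.1799 * (Real.exp (1 / (D : ℝ)) * D *
      (Real.exp (1 / (D : ℝ)) ^ N - 1))) / ρ := by
  unfold MS
  have h1 := sum_geom_le hD N
  have h2 : ∑ j ∈ Finset.range N, US D (j + D) = 0.8201 * N + 0.1799 *
      ∑ j ∈ Finset.range N, Real.exp (1 / (D : ℝ)) ^ (j + 1) := by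
    rw [Finset.mul_sum]
    have : ∀ j ∈ Finset.range N, US D (j + D) = 0.8201 +
        0.1799 * Real.exp (1 / (D : ℝ)) ^ (j + 1) := fun j _ => by
      rw [US_large hD]; ring
    rw [Finset.sum_congr rfl this, Finset.sum_add_distrib, Finset.sum_const, Finset.card_range,
      nsmul_eq_mul]
    ring
  rw [h2]
  have h3 : (0.8201 * (N : ℝ) + 0.1799 *
      ∑ j ∈ Finset.range N, Real.exp (1 / (D : ℝ)) ^ (j + 1)) / ρ ≤
      (0.8201 * N + 0.1799 * (Real.exp (1 / (D : ℝ)) * D *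
      (Real.exp (1 / (D : ℝ)) ^ N - 1))) / ρ := by
    apply div_le_div_of_nonneg_right _ hρ.le
    linarith
  linarith

lemma MS_mono {ρ : ℝ} (hρ : 0 < ρ) : Monotone (MS D ρ) := by
  apply monotone_nat_of_le_succ
  intro s
  unfold MS
  rw [Finset.sum_range_succ]
  have h1 : 0 < US D (s + D) := by
    have h2 := US_mono hD (Nat.zero_le (s + D))
    rw [US_small hD (by omega : 0 + 1 ≤ D)] at h2
    linarith
  have h2 : (∑ j ∈ Finset.range s, US D (j + D)) / ρ ≤
      (∑ j ∈ Finset.range s, US D (j + D) + US D (s + D)) / ρ :=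
    div_le_div_of_nonneg_right (by linarith) hρ.le
  linarith

end

lemma exp_one_sq_le : Real.exp 1 ^ 2 ≤ 7.38906 := by
  have h1 := Real.exp_one_lt_d9
  have h2 := Real.exp_pos 1
  nlinarith

lemma exp_245_ge : (11.58 : ℝ) ≤ Real.exp 2.45 := by
  have h1 : (1.6322 : ℝ) ≤ Real.exp 0.49 := by
    have := Real.sum_le_exp_of_nonneg (x := 0.49) (by norm_num) 6
    refine le_trans ?_ this
    norm_num [Finset.sum_range_succ, Nat.factorial]
  have h2 : Real.exp 2.45 = Real.exp 0.49 ^ 5 := by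
    rw [← Real.exp_nat_mul]
    norm_num
  rw [h2]
  calc (11.58 : ℝ) ≤ 1.6322 ^ 5 := by norm_num
    _ ≤ _ := pow_le_pow_left₀ (by norm_num) h1 5

lemma cond_two {r τ : ℝ} (hr : 2.79 ≤ r) :
    0.8201 * (τ + 2) - r - 0.1799 + 0.1799 * Real.exp 1 ^ 2 * Real.exp τ ≤
      r ^ 2 * 0.1799 * Real.exp τ := by
  have h1 := exp_one_sq_le
  have h2 : 0.071 ≤ 0.1799 * (r ^ 2 - Real.exp 1 ^ 2) := by nlinarith
  have h3 := Real.exp_pos τ
  have h4 : 0.8201 * (τ + 2) - r - 0.1799 ≤ 0.071 * Real.exp τ := by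
    rcases le_or_gt τ 1.45 with h | h
    · have : 0.8201 * (τ + 2) - r - 0.1799 ≤ 0 := by linarith
      have : 0 ≤ 0.071 * Real.exp τ := by positivity
      linarith
    · have h5 : Real.exp τ = Real.exp 2.45 * Real.exp (τ - 2.45) := by
        rw [← Real.exp_add]
        congr 1
        ring
      have h6 := Real.add_one_le_exp (τ - 2.45)
      have h7 := exp_245_ge
      have h8 : 11.58 * (τ - 1.45) ≤ Real.exp τ := by
        rw [h5]
        have : τ - 1.45 ≤ Real.exp (τ - 2.45) := by linarith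
        have h9 : 0 ≤ τ - 1.45 := by linarith
        exact mul_le_mul h7 this h9 (Real.exp_pos _).le
      linarith
  have h10 : 0.071 * Real.exp τ ≤ 0.1799 * (r ^ 2 - Real.exp 1 ^ 2) * Real.exp τ :=
    mul_le_mul_of_nonneg_right h2 h3.le
  linarith

lemma cond_U {D : ℕ} (hD : 1 ≤ D) {ρ : ℝ} (hρ : 2.79 * (D : ℝ) ≤ ρ) (s : ℕ) :
    max (MS D ρ (s + D)) 0 ≤ ρ * (US D (s + 1) - US D s) := by
  have hD0 : (0 : ℝ) < D := by exact_mod_cast hD
  have hρ0 : 0 < ρ := lt_of_lt_of_le (by positivity) hρ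
  have hK1 := one_le_K hD
  have hKs := K_sub hD
  have hKD := K_pow_D hD
  have he := exp_one_sq_le
  set K := Real.exp (1 / (D : ℝ)) with hK
  have hd : 0 ≤ US D (s + 1) - US D s := by
    have := US_mono hD (Nat.le_succ s)
    linarith
  apply max_le _ (mul_nonneg hρ0.le hd)
  rcases Nat.lt_or_ge (s + 1) D with hs | hs
  · -- small `s`
    rw [US_small hD (by omega : s + 1 + 1 ≤ D), US_small hD (by omega : s + 1 ≤ D), sub_self,
      mul_zero]
    have h1 : MS D ρ (s + D) ≤ MS D ρ (2 * D - 2) := MS_mono hD hρ0 (by omega)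
    refine h1.trans ((MS_le hD hρ0 _).trans ?_)
    rw [← hK]
    have h2 : K ^ (2 * D - 2) * K ^ 2 = Real.exp 1 ^ 2 := by
      rw [← pow_add, ← hKD, ← pow_mul]
      congr 1
      omega
    have h3 : K * K ^ (2 * D - 2) ≤ Real.exp 1 ^ 2 := by
      rw [← h2]
      have h4 : 0 ≤ K ^ (2 * D - 2) := by positivity
      nlinarith
    have h5 : K * D * (K ^ (2 * D - 2) - 1) ≤ D * 6.38906 := by
      have : K * D * (K ^ (2 * D - 2) - 1) = D * (K * K ^ (2 * D - 2) - K) := by ring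
      rw [this]
      apply mul_le_mul_of_nonneg_left _ hD0.le
      linarith
    have h6 : ((2 * D - 2 : ℕ) : ℝ) ≤ 2 * D := by
      have : (2 * D - 2 : ℕ) ≤ 2 * D := Nat.sub_le _ _
      exact_mod_cast this
    have h7 : (0.8201 * ((2 * D - 2 : ℕ) : ℝ) + 0.1799 * (K * D * (K ^ (2 * D - 2) - 1))) / ρ ≤ 1 := by
      rw [div_le_one hρ0]
      linarith
    linarith
  · -- large `s`
    obtain ⟨t, ht⟩ : ∃ t, s + 1 = t + D := ⟨s + 1 - D, by omega⟩
    have hU1 : US D (s + 1) = 1 + 0.1799 * (K ^ (t + 1) - 1) := by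
      unfold US
      have : s + 1 + 1 - D = t + 1 := by omega
      rw [this]
    have hU2 : US D s = 1 + 0.1799 * (K ^ t - 1) := by
      unfold US
      have : s + 1 - D = t := by omega
      rw [this]
    refine (MS_le hD hρ0 _).trans ?_
    rw [← hK, hU1, hU2]
    have hKt : K ^ t = Real.exp (t / D) := by
      rw [hK, ← Real.exp_nat_mul]
      congr 1
      field_simp
    have h2 : K * K ^ (s + D) = K ^ t * Real.exp 1 ^ 2 := by
      rw [← hKD, ← pow_mul, ← pow_add, ← pow_succ']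
      congr 1
      omega
    have h3 : K * D * (K ^ (s + D) - 1) ≤ D * (K ^ t * Real.exp 1 ^ 2 - 1) := by
      have : K * D * (K ^ (s + D) - 1) = D * (K * K ^ (s + D) - K) := by ring
      rw [this, h2]
      apply mul_le_mul_of_nonneg_left _ hD0.le
      linarith
    have h4 : ((s + D : ℕ) : ℝ) ≤ t + 2 * D := by
      have : s + D ≤ t + 2 * D := by omega
      exact_mod_cast this
    have h5 := cond_two (r := ρ / D) (τ := t / D) (by rw [le_div_iff₀ hD0]; exact hρ)
    rw [← hKt] at h5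
    have hr0 : 0 < ρ / D := by positivity
    have h6 : -1 + (0.8201 * (t / D + 2) + 0.1799 * (K ^ t * Real.exp 1 ^ 2 - 1)) / (ρ / D) ≤
        ρ / D * (0.1799 * K ^ t) := by
      have h7 : (0.8201 * ((t : ℝ) / D + 2) + 0.1799 * (K ^ t * Real.exp 1 ^ 2 - 1)) / (ρ / D) ≤
          1 + ρ / D * (0.1799 * K ^ t) := by
        rw [div_le_iff₀ hr0]
        nlinarith
      linarith
    have h8 : (0.8201 * ((s + D : ℕ) : ℝ) + 0.1799 * (K * D * (K ^ (s + D) - 1))) / ρ ≤
        (0.8201 * ((t : ℝ) / D + 2) + 0.1799 * (K ^ t * Real.exp 1 ^ 2 - 1)) / (ρ / D) := by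
      have h9 : (0.8201 * ((t : ℝ) / D + 2) + 0.1799 * (K ^ t * Real.exp 1 ^ 2 - 1)) / (ρ / D) =
          (0.8201 * (t + 2 * D) + 0.1799 * (D * (K ^ t * Real.exp 1 ^ 2 - 1))) / ρ := by
        field_simp
      rw [h9]
      apply div_le_div_of_nonneg_right _ hρ0.le
      linarith
    have h10 : ρ / D * (0.1799 * K ^ t) ≤
        ρ * (1 + 0.1799 * (K ^ (t + 1) - 1) - (1 + 0.1799 * (K ^ t - 1))) := by
      have h11 : ρ * (1 + 0.1799 * (K ^ (t + 1) - 1) - (1 + 0.1799 * (K ^ t - 1))) =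
          ρ * (0.1799 * K ^ t) * (K - 1) := by rw [pow_succ]; ring
      have h12 : ρ / D * (0.1799 * K ^ t) = ρ * (0.1799 * K ^ t) * (1 / D) := by ring
      rw [h11, h12]
      exact mul_le_mul_of_nonneg_left hKs (by positivity)
    linarith

variable {K W ι : Type*} [Field K] [AddCommGroup W] [Module K W] [FiniteDimensional K W]
  [DecidableEq ι]

/-- **Positivity on a half line.** -/
theorem config_real (P : Set (W →ₗ[K] K)) (a : ι → W) (D : ℕ) (hD : 1 ≤ D) (q : ℝ)
    (hq : 3.79 * (D : ℝ) ≤ q) (V : Submodule K W)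
    (E : Finset ι) (hE : ∀ j ∈ E, a j ∈ V) (hE0 : ∀ j ∈ E, a j ≠ 0)
    (hP : ∀ u ∈ V, u ≠ 0 → ∃ φ ∈ P, φ u ≠ 0)
    (hk : ∀ φ ∈ P, ({j ∈ (E : Set ι) | φ (a j) ≠ 0}).ncard ≤ D + 1) :
    0 < ∑ X ∈ E.powerset, (-1 : ℝ) ^ X.card *
      q ^ (finrank K V - finrank K ↥(span K (a '' (X : Set ι)))) := by
  have hD0 : (1 : ℝ) ≤ D := by exact_mod_cast hD
  have hρ : 2.79 * (D : ℝ) ≤ q - D := by linarith
  have hρ0 : 0 < q - D := by linarith
  rw [← T_eq_sum' q (finrank K V) a E]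
  refine (mainR q (US D) (MS D (q - D)) (q - D) D (US_small hD (by omega)) (by simp [MS])
    (US_mono hD) (MS_mono hD hρ0) hρ0 ?_ ?_ (cond_U hD hρ) ?_ P (finrank K V) V
    (E.toList.map a) [] rfl ?_ ?_ hP ?_).pos
  · have : ∑ i ∈ Finset.range D, US D i = D := by
      rw [Finset.sum_congr rfl fun i hi => US_small hD (Nat.succ_le_of_lt (Finset.mem_range.1 hi))]
      simp
    rw [this]
  · have h1 := US_large hD 0
    rw [zero_add, zero_add, pow_one] at h1
    rw [h1]
    have h2 : Real.exp (1 / (D : ℝ)) ≤ Real.exp 1 := by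
      apply Real.exp_le_exp.2
      rw [div_le_one (by linarith)]
      exact hD0
    have h3 := Real.exp_one_lt_d9
    linarith
  · intro s
    unfold MS
    rw [Finset.sum_range_succ]
    have : (q - D) * (-1 + (∑ j ∈ Finset.range s, US D (j + D) + US D (s + D)) / (q - D) -
        (-1 + (∑ j ∈ Finset.range s, US D (j + D)) / (q - D))) = US D (s + D) := by
      field_simp
      ring
    rw [this]
  · intro x hx
    obtain ⟨j, hj, rfl⟩ := List.mem_map.1 hx
    exact hE j (Finset.mem_toList.1 hj)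
  · intro x hx
    obtain ⟨j, hj, rfl⟩ := List.mem_map.1 hx
    exact hE0 j (Finset.mem_toList.1 hj)
  · intro φ hφ p hp
    rw [countP_map_toList a E φ p hp, List.countP_nil, add_zero]
    exact hk φ hφ

end Pool.Agent.Y358.MM
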