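import Pool.Agent.H157R2.Chrom
import Pool.Agent.H157R2.Menger
import Pool.Agent.H157R2.Parity
import Pool.Agent.Y358.MM.DiscNum
import Pool.Agent.Y358.MM.RealNum

/-!
# Chromatic polynomials

The incidence vectors of the edges, with the functionals given by the small cuts.
-/

set_option autoImplicit false

namespace Pool.Agent.Y358.MM

open Module Submodule Pool.Agent.H157R2.Mat Pool.Agent.H157R2.Menger Pool.Agent.H157R2.Chrom

variable {V : Type*} [Fintype V] [DecidableEq V]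

/-- The configuration of the incidence vectors of the edges. -/
theorem graph_data [Nonempty V] (G : SimpleGraph V) [DecidableRel G.Adj] (k : ℕ)
    (h : ∀ u v : V, u ≠ v → ∃ S : Finset V, u ∈ S ∧ v ∉ S ∧ (cut G S).card ≤ k) :
    ∃ (V0 : Submodule (ZMod 2) (V → ZMod 2)) (P : Set ((V → ZMod 2) →ₗ[ZMod 2] ZMod 2)),
      (∀ e ∈ G.edgeFinset, (inc e : V → ZMod 2) ∈ V0) ∧
      (∀ e ∈ G.edgeFinset, (inc e : V → ZMod 2) ≠ 0) ∧
      (∀ u ∈ V0, u ≠ 0 → ∃ φ ∈ P, φ u ≠ 0) ∧
      (∀ φ ∈ P, ({e ∈ (G.edgeFinset : Set (Sym2 V)) | φ (inc e) ≠ 0}).ncard ≤ k) ∧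
      finrank (ZMod 2) V0 + 1 = Fintype.card V := by
  classical
  set V0 : Submodule (ZMod 2) (V → ZMod 2) := ⊤ ⊓ LinearMap.ker (phiS (Finset.univ : Finset V))
    with hV0
  obtain ⟨v0⟩ := ‹Nonempty V›
  have hnot : ¬ (⊤ : Submodule (ZMod 2) (V → ZMod 2)) ≤
      LinearMap.ker (phiS (Finset.univ : Finset V)) := by
    intro hle
    have := hle (show (Pi.single v0 1 : V → ZMod 2) ∈ ⊤ from mem_top)
    rw [LinearMap.mem_ker, phiS_single, if_pos (Finset.mem_univ _)] at this
    exact one_ne_zero this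
  have hfr : finrank (ZMod 2) V0 + 1 = Fintype.card V := by
    have := Pool.Agent.Y358.MM.finrank_inf_ker (phiS (Finset.univ : Finset V)) ⊤ hnot
    rw [finrank_top, finrank_pi] at this
    exact this
  have hchar : ∀ t : ZMod 2, t + t = 0 := by decide
  have hcases : ∀ t : ZMod 2, t ≠ 0 → t = 1 := by decide
  have hE : ∀ e ∈ G.edgeFinset, (inc e : V → ZMod 2) ∈ V0 := by
    intro e he
    refine ⟨mem_top, ?_⟩
    have hd := G.not_isDiag_of_mem_edgeFinset he
    induction e with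
    | _ x y =>
      rw [Sym2.mk_isDiag_iff] at hd
      rw [SetLike.mem_coe, LinearMap.mem_ker, inc_mk hd, map_add, phiS_single, phiS_single]
      simp [hchar]
  have hcut : ∀ e ∈ G.edgeFinset, ∀ S : Finset V, phiS S (inc e) ≠ 0 → e ∈ cut G S := by
    intro e he S hne
    unfold cut
    rw [Finset.mem_filter]
    refine ⟨he, ?_⟩
    have hd := G.not_isDiag_of_mem_edgeFinset he
    induction e with
    | _ x y =>
      rw [Sym2.mk_isDiag_iff] at hd
      rw [inc_mk hd, map_add, phiS_single, phiS_single] at hne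
      by_cases hx : x ∈ S <;> by_cases hy : y ∈ S
      · exact absurd (by simp [hx, hy, hchar]) hne
      · simp [hx, hy]
      · simp [hx, hy]
      · exact absurd (by simp [hx, hy]) hne
  refine ⟨V0, {φ | ∃ S : Finset V, (cut G S).card ≤ k ∧ φ = phiS S}, hE, ?_, ?_, ?_, hfr⟩
  · intro e he h0
    have hd := G.not_isDiag_of_mem_edgeFinset he
    induction e with
    | _ x y =>
      have := congrFun h0 x
      simp [inc] at this
  · intro u hu hu0
    -- the support of `u`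
    set T : Finset V := Finset.univ.filter fun z => u z ≠ 0 with hT
    have hsum : ∀ S : Finset V, phiS S u = ((S ∩ T).card : ZMod 2) := by
      intro S
      have e1 : S ∩ T = S.filter fun z => u z ≠ 0 := by
        ext z
        simp [hT]
      rw [phiS_apply, e1, Finset.card_filter, Nat.cast_sum]
      refine Finset.sum_congr rfl fun z _ => ?_
      by_cases hz0 : u z = 0
      · simp [hz0]
      · rw [if_pos hz0, Nat.cast_one]
        exact hcases _ hz0
    have hTne : T.Nonempty := by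
      obtain ⟨z, hz⟩ := Function.ne_iff.1 hu0
      exact ⟨z, by simpa [hT] using hz⟩
    have hTe : Even T.card := by
      have h1 : phiS Finset.univ u = 0 := LinearMap.mem_ker.1 hu.2
      rw [hsum, Finset.univ_inter] at h1
      exact (ZMod.natCast_eq_zero_iff_even).1 h1
    obtain ⟨S, hS, hSk⟩ := odd_cut G k h _ T rfl hTne hTe
    refine ⟨phiS S, ⟨S, hSk, rfl⟩, ?_⟩
    rw [hsum, (ZMod.natCast_eq_one_iff_odd).2 hS]
    exact one_ne_zero
  · intro φ hφ
    obtain ⟨S, hS, rfl⟩ := hφ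
    refine le_trans ?_ hS
    rw [← Set.ncard_coe_finset]
    apply Set.ncard_le_ncard _ (Set.toFinite _)
    rintro e ⟨he, hne⟩
    exact hcut e he S hne

/-- the additional factor `z` -/
lemma extra_factor {A : Type*} [CommRing A] (G : SimpleGraph V) [DecidableRel G.Adj]
    (V0 : Submodule (ZMod 2) (V → ZMod 2)) (hE : ∀ e ∈ G.edgeFinset, (inc e : V → ZMod 2) ∈ V0)
    (hfr : finrank (ZMod 2) V0 + 1 = Fintype.card V) (z : A) :
    ∑ X ∈ G.edgeFinset.powerset, (-1 : A) ^ X.card *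
        z ^ (Fintype.card V - finrank (ZMod 2) (sp (ZMod 2) (inc : Sym2 V → V → ZMod 2) X)) =
      z * ∑ X ∈ G.edgeFinset.powerset, (-1 : A) ^ X.card * z ^ (finrank (ZMod 2) V0 -
        finrank (ZMod 2) ↥(span (ZMod 2) ((inc : Sym2 V → V → ZMod 2) '' (X : Set (Sym2 V))))) := by
  rw [Finset.mul_sum]
  refine Finset.sum_congr rfl fun X hX => ?_
  rw [Finset.mem_powerset] at hX
  have h1 : finrank (ZMod 2) (sp (ZMod 2) (inc : Sym2 V → V → ZMod 2) X) ≤
      finrank (ZMod 2) V0 := Submodule.finrank_mono (sp_le fun j hj => hE j (hX hj))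
  have h2 : Fintype.card V - finrank (ZMod 2) (sp (ZMod 2) (inc : Sym2 V → V → ZMod 2) X) =
      (finrank (ZMod 2) V0 -
        finrank (ZMod 2) (sp (ZMod 2) (inc : Sym2 V → V → ZMod 2) X)) + 1 := by omega
  rw [h2, pow_succ]
  unfold sp
  ring

theorem graph_four [Nonempty V] (G : SimpleGraph V) [DecidableRel G.Adj] (D : ℕ) (hD : 1 ≤ D)
    (h : ∀ u v : V, u ≠ v → ∃ S : Finset V, u ∈ S ∧ v ∉ S ∧ (cut G S).card ≤ D + 1)
    (z : ℂ) (hz : 4 * (D : ℝ) ≤ ‖z‖) :
    ∑ A ∈ G.edgeFinset.powerset, (-1 : ℂ) ^ A.card *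
        z ^ (Fintype.card V - finrank (ZMod 2) (sp (ZMod 2) (inc : Sym2 V → V → ZMod 2) A)) ≠ 0 := by
  classical
  obtain ⟨V0, P, hE, hE0, hP, hk, hfr⟩ := graph_data G (D + 1) h
  rw [extra_factor G V0 hE hfr]
  have hD0 : (1 : ℝ) ≤ D := by exact_mod_cast hD
  have hz0 : z ≠ 0 := norm_pos_iff.1 (by linarith)
  exact mul_ne_zero hz0 (config_four P inc D hD z hz V0 G.edgeFinset hE hE0 hP hk)

theorem graph_c [Nonempty V] (G : SimpleGraph V) [DecidableRel G.Adj] (D : ℕ) (hD : 1 ≤ D)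
    (h : ∀ u v : V, u ≠ v → ∃ S : Finset V, u ∈ S ∧ v ∉ S ∧ (cut G S).card ≤ D + 1)
    (z : ℂ) (hz0 : z ≠ 0) (c : ℝ) (hc : 1 < c) (hc2 : c < 2)
    (hz : 2 * c ^ D - c ≤ (c - 1) * ‖z - 1‖) :
    ∑ A ∈ G.edgeFinset.powerset, (-1 : ℂ) ^ A.card *
        z ^ (Fintype.card V - finrank (ZMod 2) (sp (ZMod 2) (inc : Sym2 V → V → ZMod 2) A)) ≠ 0 := by
  classical
  obtain ⟨V0, P, hE, hE0, hP, hk, hfr⟩ := graph_data G (D + 1) h
  rw [extra_factor G V0 hE hfr]
  exact mul_ne_zero hz0 (config P inc D hD c hc hc2 z hz V0 G.edgeFinset hE hE0 hP hk)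

theorem graph_real [Nonempty V] (G : SimpleGraph V) [DecidableRel G.Adj] (D : ℕ) (hD : 1 ≤ D)
    (h : ∀ u v : V, u ≠ v → ∃ S : Finset V, u ∈ S ∧ v ∉ S ∧ (cut G S).card ≤ D + 1)
    (z : ℝ) (hz : 3.79 * (D : ℝ) ≤ z) :
    0 < ∑ A ∈ G.edgeFinset.powerset, (-1 : ℝ) ^ A.card *
        z ^ (Fintype.card V - finrank (ZMod 2) (sp (ZMod 2) (inc : Sym2 V → V → ZMod 2) A)) := by
  classical
  obtain ⟨V0, P, hE, hE0, hP, hk, hfr⟩ := graph_data G (D + 1) h
  rw [extra_factor G V0 hE hfr]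
  have hD0 : (1 : ℝ) ≤ D := by exact_mod_cast hD
  exact mul_pos (by linarith) (config_real P inc D hD z hz V0 G.edgeFinset hE hE0 hP hk)

/-- the polynomial that counts the colourings -/
theorem poly_eq (G : SimpleGraph V) [DecidableRel G.Adj] (P : Polynomial ℂ)
    (hP : ∀ n : ℕ, P.eval (n : ℂ) = ((Nat.card (G.Coloring (Fin n)) : ℕ) : ℂ)) (z : ℂ) :
    P.eval z = ∑ A ∈ G.edgeFinset.powerset, (-1 : ℂ) ^ A.card *
        z ^ (Fintype.card V - finrank (ZMod 2) (sp (ZMod 2) (inc : Sym2 V → V → ZMod 2) A)) := by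
  set Q : Polynomial ℂ := ∑ A ∈ G.edgeFinset.powerset, Polynomial.C ((-1 : ℂ) ^ A.card) *
        Polynomial.X ^ (Fintype.card V - finrank (ZMod 2) (sp (ZMod 2) (inc : Sym2 V → V → ZMod 2) A))
    with hQ
  have hQe : ∀ w : ℂ, Q.eval w = ∑ A ∈ G.edgeFinset.powerset, (-1 : ℂ) ^ A.card *
        w ^ (Fintype.card V - finrank (ZMod 2) (sp (ZMod 2) (inc : Sym2 V → V → ZMod 2) A)) := by
    intro w
    rw [hQ, Polynomial.eval_finsetSum]
    refine Finset.sum_congr rfl fun A _ => ?_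
    rw [Polynomial.eval_mul, Polynomial.eval_C, Polynomial.eval_pow, Polynomial.eval_X]
  have hPQ : P = Q := by
    apply Polynomial.eq_of_infinite_eval_eq
    apply Set.Infinite.mono (s := Set.range (fun n : ℕ => (n : ℂ)))
    · rintro _ ⟨n, rfl⟩
      show P.eval (n : ℂ) = Q.eval (n : ℂ)
      rw [hP n, hQe, whitney G n]
    · exact Set.infinite_range_of_injective Nat.cast_injective
  rw [hPQ, hQe]

/-- small cuts from the edge version of Menger's theorem -/
theorem cuts_of_paths (G : SimpleGraph V) [DecidableRel G.Adj] (k : ℕ)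
    (h : ∀ u v : V, u ≠ v → ¬ ∃ p : Fin (k + 1) → G.Walk u v,
      (∀ i, (p i).IsPath) ∧ Pairwise (fun i j => List.Disjoint (p i).edges (p j).edges)) :
    ∀ u v : V, u ≠ v → ∃ S : Finset V, u ∈ S ∧ v ∉ S ∧ (cut G S).card ≤ k := by
  intro u v huv
  by_contra hall
  push Not at hall
  apply h u v huv
  exact edge_menger G u v huv (k + 1) (fun S hu hv => hall S hu hv)

/-- the cut of a single vertex and of its complement -/
lemma cut_single (G : SimpleGraph V) [DecidableRel G.Adj] (v : V) :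
    (cut G {v}).card ≤ G.degree v ∧ (cut G (Finset.univ.erase v)).card ≤ G.degree v := by
  have h1 : (G.incidenceFinset v).card = G.degree v := G.card_incidenceFinset_eq_degree v
  constructor
  · rw [← h1]
    apply Finset.card_le_card
    intro e he
    unfold cut at he
    rw [Finset.mem_filter] at he
    obtain ⟨he, ⟨x, hx, hxv⟩, -⟩ := he
    rw [Finset.mem_singleton] at hxv
    subst hxv
    rw [SimpleGraph.mem_incidenceFinset]
    exact ⟨SimpleGraph.mem_edgeFinset.1 he, hx⟩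
  · rw [← h1]
    apply Finset.card_le_card
    intro e he
    unfold cut at he
    rw [Finset.mem_filter] at he
    obtain ⟨he, -, ⟨x, hx, hxv⟩⟩ := he
    have : x = v := by
      by_contra hne
      exact hxv (Finset.mem_erase.2 ⟨hne, Finset.mem_univ _⟩)
    subst this
    rw [SimpleGraph.mem_incidenceFinset]
    exact ⟨SimpleGraph.mem_edgeFinset.1 he, hx⟩

/-- small cuts from small degrees -/
theorem cuts_of_degrees (G : SimpleGraph V) [DecidableRel G.Adj] (k : ℕ) (w : V)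
    (h : ∀ v, v ≠ w → G.degree v ≤ k) :
    ∀ u v : V, u ≠ v → ∃ S : Finset V, u ∈ S ∧ v ∉ S ∧ (cut G S).card ≤ k := by
  intro u v huv
  by_cases hu : u = w
  · have hv : v ≠ w := fun h => huv (hu.trans h.symm)
    exact ⟨Finset.univ.erase v, by simp [huv], by simp, (cut_single G v).2.trans (h v hv)⟩
  · exact ⟨{u}, by simp, by simpa using huv.symm, (cut_single G u).1.trans (h u hu)⟩

end Pool.Agent.Y358.MM
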