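import Pool.Agent.Y358.MM.Flow

/-!
# Flow polynomials, continued

The flow polynomial as the characteristic polynomial of the configuration of the evaluations.
-/

set_option autoImplicit false

namespace Pool.Agent.Y358.MM.Flow

open Module Submodule

variable {n m : ℕ}

/-- the cycle space over `ZMod 2` -/
noncomputable abbrev Z (ends : Fin m → Fin n × Fin n) : Submodule (ZMod 2) (Fin m → ZMod 2) :=
  LinearMap.ker (bd ends)

/-- the evaluation at an edge -/
noncomputable def ev (ends : Fin m → Fin n × Fin n) (e : Fin m) : Module.Dual (ZMod 2) (Z ends) :=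
  (LinearMap.proj e : (Fin m → ZMod 2) →ₗ[ZMod 2] ZMod 2).domRestrict (Z ends)

lemma ev_apply (ends : Fin m → Fin n × Fin n) (e : Fin m) (z : Z ends) :
    ev ends e z = (z : Fin m → ZMod 2) e := rfl

lemma rank_ev (ends : Fin m → Fin n × Fin n) (X : Finset (Fin m)) :
    finrank (ZMod 2) ↥(span (ZMod 2) (ev ends '' (X : Set (Fin m)))) +
      finrank (ZMod 2) ↥(U m Xᶜ ⊓ LinearMap.ker (bd ends)) = finrank (ZMod 2) (Z ends) := by
  rw [← Subspace.finrank_add_finrank_dualCoannihilator_eq
    (span (ZMod 2) (ev ends '' (X : Set (Fin m))))]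
  congr 1
  have h1 : (span (ZMod 2) (ev ends '' (X : Set (Fin m)))).dualCoannihilator =
      (U m Xᶜ).comap (Z ends).subtype := by
    ext z
    rw [mem_dualCoannihilator, mem_comap, mem_U]
    constructor
    · intro h e he
      have he' : e ∈ X := by simpa using he
      exact h (ev ends e) (subset_span ⟨e, he', rfl⟩)
    · intro h φ hφ
      induction hφ using Submodule.span_induction with
      | mem x hx =>
        obtain ⟨e, he, rfl⟩ := hx
        exact h e (by simpa using he)
      | zero => rfl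
      | add x y _ _ h1 h2 => rw [LinearMap.add_apply, h1, h2, add_zero]
      | smul c x _ h => rw [LinearMap.smul_apply, h, smul_zero]
  rw [h1, inf_comm, ← Submodule.map_comap_subtype, Submodule.finrank_map_subtype_eq]

/-- the flow polynomial as a characteristic polynomial -/
lemma flow_eq {A : Type*} [CommRing A] (ends : Fin m → Fin n × Fin n) (q : A) :
    ∑ Y ∈ (Finset.univ : Finset (Fin m)).powerset, (-1 : A) ^ (m - Y.card) *
      q ^ (Y.card + Nat.card (und ends Y).ConnectedComponent - n) =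
    ∑ X ∈ (Finset.univ : Finset (Fin m)).powerset, (-1 : A) ^ X.card *
      q ^ (finrank (ZMod 2) ↥(⊤ : Submodule (ZMod 2) (Module.Dual (ZMod 2) (Z ends))) -
        finrank (ZMod 2) ↥(span (ZMod 2) (ev ends '' (X : Set (Fin m))))) := by
  refine Finset.sum_nbij' (fun X => Xᶜ) (fun X => Xᶜ) (by simp) (by simp) (by simp) (by simp) ?_
  intro Y _
  have h1 := rank_ev ends Yᶜ
  rw [compl_compl] at h1
  have h2 := nullity ends Y
  rw [finrank_top, Subspace.dual_finrank_eq, Finset.card_compl, Fintype.card_fin]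
  congr 2
  omega

lemma exists_cycle (ends : Fin m → Fin n × Fin n) (e : Fin m)
    (hb : Nat.card (und ends (Finset.univ.erase e)).ConnectedComponent =
      Nat.card (und ends Finset.univ).ConnectedComponent) :
    ∃ z ∈ Z ends, z e ≠ 0 := by
  by_contra hcon
  push Not at hcon
  have h1 : U m (Finset.univ.erase e) ⊓ LinearMap.ker (bd ends) = LinearMap.ker (bd ends) := by
    apply inf_eq_right.2
    intro z hz
    rw [mem_U]
    intro f hf
    have : f = e := by
      by_contra hne
      exact hf (Finset.mem_erase.2 ⟨hne, Finset.mem_univ _⟩)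
    rw [this]
    exact hcon z hz
  have h2 : U m Finset.univ ⊓ LinearMap.ker (bd ends) = LinearMap.ker (bd ends) := by
    apply inf_eq_right.2
    intro z hz
    rw [mem_U]
    intro f hf
    exact absurd (Finset.mem_univ f) hf
  have h3 := nullity ends (Finset.univ.erase e)
  have h4 := nullity ends Finset.univ
  rw [h1, hb, Finset.card_erase_of_mem (Finset.mem_univ e)] at h3
  rw [h2] at h4
  have h5 : 0 < (Finset.univ : Finset (Fin m)).card := Finset.card_pos.2 ⟨e, Finset.mem_univ e⟩
  omega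

/-- The data of the configuration. -/
theorem flow_data (ends : Fin m → Fin n × Fin n) (k : ℕ)
    (hb : ∀ e, Nat.card (und ends (Finset.univ.erase e)).ConnectedComponent =
      Nat.card (und ends Finset.univ).ConnectedComponent)
    (hS : Z ends ≤ span (ZMod 2) {c | c ∈ Z ends ∧ (Finset.univ.filter fun e => c e ≠ 0).card ≤ k}) :
    ∃ P : Set (Module.Dual (ZMod 2) (Z ends) →ₗ[ZMod 2] ZMod 2),
      (∀ e : Fin m, ev ends e ≠ 0) ∧
      (∀ u : Module.Dual (ZMod 2) (Z ends), u ≠ 0 → ∃ φ ∈ P, φ u ≠ 0) ∧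
      (∀ φ ∈ P, ({e ∈ ((Finset.univ : Finset (Fin m)) : Set (Fin m)) |
        φ (ev ends e) ≠ 0}).ncard ≤ k) := by
  classical
  refine ⟨{φ | ∃ z : Z ends, (Finset.univ.filter fun e => (z : Fin m → ZMod 2) e ≠ 0).card ≤ k ∧
    φ = Module.Dual.eval (ZMod 2) (Z ends) z}, ?_, ?_, ?_⟩
  · intro e h0
    obtain ⟨z, hz, hze⟩ := exists_cycle ends e (hb e)
    apply hze
    have := LinearMap.congr_fun h0 (⟨z, hz⟩ : Z ends)
    exact this
  · intro u hu
    by_contra hcon
    push Not at hcon
    apply hu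
    have h1 : ∀ z : Fin m → ZMod 2, z ∈ span (ZMod 2) {c | c ∈ Z ends ∧
        (Finset.univ.filter fun e => c e ≠ 0).card ≤ k} → ∃ hz : z ∈ Z ends, u ⟨z, hz⟩ = 0 := by
      intro z hz
      induction hz using Submodule.span_induction with
      | mem x hx =>
        refine ⟨hx.1, ?_⟩
        exact hcon (Module.Dual.eval (ZMod 2) (Z ends) ⟨x, hx.1⟩) ⟨⟨x, hx.1⟩, hx.2, rfl⟩
      | zero => exact ⟨Submodule.zero_mem _, map_zero u⟩
      | add x y _ _ h1 h2 =>
        obtain ⟨hx, hux⟩ := h1
        obtain ⟨hy, huy⟩ := h2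
        refine ⟨Submodule.add_mem _ hx hy, ?_⟩
        have : (⟨x + y, Submodule.add_mem _ hx hy⟩ : Z ends) = ⟨x, hx⟩ + ⟨y, hy⟩ := rfl
        rw [this, map_add, hux, huy, add_zero]
      | smul c x _ h =>
        obtain ⟨hx, hux⟩ := h
        refine ⟨Submodule.smul_mem _ c hx, ?_⟩
        have : (⟨c • x, Submodule.smul_mem _ c hx⟩ : Z ends) = c • ⟨x, hx⟩ := rfl
        rw [this, map_smul, hux, smul_zero]
    ext z
    obtain ⟨_, h2⟩ := h1 z (hS z.2)
    exact h2
  · rintro φ ⟨z, hz, rfl⟩
    refine le_trans (le_of_eq ?_) hz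
    rw [← Set.ncard_coe_finset]
    congr 1
    ext e
    simp [Module.Dual.eval_apply, ev_apply]

section

variable (ends : Fin m → Fin n × Fin n) (D : ℕ) (hD : 1 ≤ D)
    (hb : ∀ e, Nat.card (und ends (Finset.univ.erase e)).ConnectedComponent =
      Nat.card (und ends Finset.univ).ConnectedComponent)
    (hS : Z ends ≤
      span (ZMod 2) {c | c ∈ Z ends ∧ (Finset.univ.filter fun e => c e ≠ 0).card ≤ D + 1})

include hD hb hS

theorem flow_four (q : ℂ) (hq : 4 * (D : ℝ) ≤ ‖q‖) :
    ∑ Y ∈ (Finset.univ : Finset (Fin m)).powerset, (-1 : ℂ) ^ (m - Y.card) *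
      q ^ (Y.card + Nat.card (und ends Y).ConnectedComponent - n) ≠ 0 := by
  obtain ⟨P, hE0, hP, hk⟩ := flow_data ends (D + 1) hb hS
  rw [flow_eq]
  exact config_four P (ev ends) D hD q hq ⊤ Finset.univ (fun _ _ => mem_top) (fun e _ => hE0 e)
    (fun u _ => hP u) hk

theorem flow_c (q : ℂ) (c : ℝ) (hc : 1 < c) (hc2 : c < 2)
    (hq : 2 * c ^ D - c ≤ (c - 1) * ‖q - 1‖) :
    ∑ Y ∈ (Finset.univ : Finset (Fin m)).powerset, (-1 : ℂ) ^ (m - Y.card) *
      q ^ (Y.card + Nat.card (und ends Y).ConnectedComponent - n) ≠ 0 := by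
  obtain ⟨P, hE0, hP, hk⟩ := flow_data ends (D + 1) hb hS
  rw [flow_eq]
  exact config P (ev ends) D hD c hc hc2 q hq ⊤ Finset.univ (fun _ _ => mem_top)
    (fun e _ => hE0 e) (fun u _ => hP u) hk

theorem flow_real (q : ℝ) (hq : 3.79 * (D : ℝ) ≤ q) :
    0 < ∑ Y ∈ (Finset.univ : Finset (Fin m)).powerset, (-1 : ℝ) ^ (m - Y.card) *
      q ^ (Y.card + Nat.card (und ends Y).ConnectedComponent - n) := by
  obtain ⟨P, hE0, hP, hk⟩ := flow_data ends (D + 1) hb hS
  rw [flow_eq]
  exact config_real P (ev ends) D hD q hq ⊤ Finset.univ (fun _ _ => mem_top) (fun e _ => hE0 e)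
    (fun u _ => hP u) hk

end

end Pool.Agent.Y358.MM.Flow
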