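import Mathlib

/-!
# A linear zero-free region for characteristic polynomials of vector configurations

`W` is a finite dimensional vector space over a field `K`. A configuration is a finite list of
vectors. If every nonzero vector of a subspace `V` is detected by a functional from a family `P`
and every member of `P` is nonzero on at most `D + 1` of the vectors of the configuration, then the
characteristic polynomial has no root `q` with `(c - 1) |q - 1| ≥ 2 c ^ D - c`, for any `1 < c < 2`.

The proof is an induction which compares the characteristic polynomials of a configuration and of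
the configuration enlarged by a list of vectors in the span of the vectors removed before.
-/

set_option autoImplicit false

namespace Pool.Agent.Y358.MM

open Module Submodule

variable {K W : Type*} [Field K] [AddCommGroup W] [Module K W]

section Ring

variable {A : Type*} [CommRing A]

/-- The sum, over all sublists `X` of the list, of `(-1)^|X| q^(n - dim (S + span X))`. -/
noncomputable def T (q : A) (n : ℕ) : List W → Submodule K W → A
  | [], S => q ^ (n - finrank K S)
  | w :: L, S => T q n L S - T q n L (S ⊔ span K {w})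

lemma T_nil (q : A) (n : ℕ) (S : Submodule K W) : T q n [] S = q ^ (n - finrank K S) := rfl

lemma T_cons (q : A) (n : ℕ) (w : W) (L : List W) (S : Submodule K W) :
    T q n (w :: L) S = T q n L S - T q n L (S ⊔ span K {w}) := rfl

lemma T_perm (q : A) (n : ℕ) {L L' : List W} (h : L.Perm L') :
    ∀ S : Submodule K W, T q n L S = T q n L' S := by
  induction h with
  | nil => intro S; rfl
  | cons x _ ih => intro S; rw [T_cons, T_cons, ih, ih]
  | swap x y l =>
    intro S
    simp only [T_cons]
    rw [sup_right_comm]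
    ring
  | trans _ _ ih1 ih2 => intro S; rw [ih1, ih2]

lemma T_of_mem_zero (q : A) (n : ℕ) {L : List W} (h : (0 : W) ∈ L) :
    ∀ S : Submodule K W, T q n L S = 0 := by
  induction L with
  | nil => simp at h
  | cons w L ih =>
    intro S
    rw [T_cons]
    by_cases hw : w = 0
    · subst hw
      rw [span_zero_singleton, sup_bot_eq, sub_self]
    · have h' : (0 : W) ∈ L := by
        rcases List.mem_cons.1 h with h | h
        · exact absurd h.symm hw
        · exact h
      rw [ih h', ih h', sub_self]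

/-- The projection along `w` to the kernel of `φ`. -/
noncomputable def pr (φ : W →ₗ[K] K) (w x : W) : W := x - (φ x / φ w) • w

lemma pr_ker (φ : W →ₗ[K] K) {w : W} (hw : φ w ≠ 0) (x : W) : pr φ w x ∈ LinearMap.ker φ := by
  rw [LinearMap.mem_ker, pr, map_sub, map_smul, smul_eq_mul, div_mul_cancel₀ _ hw, sub_self]

lemma pr_of_ker (φ : W →ₗ[K] K) {w x : W} (hx : φ x = 0) : pr φ w x = x := by
  rw [pr, hx, zero_div, zero_smul, sub_zero]

lemma pr_mem {φ : W →ₗ[K] K} {w x : W} {S : Submodule K W} (hx : x ∈ S) (hw : w ∈ S) :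
    pr φ w x ∈ S := sub_mem hx (smul_mem _ _ hw)

variable [FiniteDimensional K W]

lemma finrank_span_sup (φ : W →ₗ[K] K) {w : W} (hw : φ w ≠ 0) {S : Submodule K W}
    (hS : S ≤ LinearMap.ker φ) : finrank K ↥(span K {w} ⊔ S) = finrank K S + 1 := by
  have hw0 : w ≠ 0 := by
    rintro rfl
    exact hw (map_zero φ)
  have h1 := Submodule.finrank_sup_add_finrank_inf_eq (span K {w}) S
  have h2 : span K {w} ⊓ S = ⊥ := by
    rw [eq_bot_iff]
    rintro x ⟨hx1, hx2⟩
    obtain ⟨t, rfl⟩ := mem_span_singleton.1 hx1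
    have h3 := LinearMap.mem_ker.1 (hS hx2)
    rw [map_smul, smul_eq_mul] at h3
    rcases mul_eq_zero.1 h3 with h4 | h4
    · rw [h4, zero_smul]; exact zero_mem _
    · exact absurd h4 hw
  rw [h2, finrank_bot, finrank_span_singleton hw0] at h1
  omega

/-- Contraction along `w` is the same as projection to a hyperplane not containing `w`. -/
lemma T_proj (q : A) (n : ℕ) (φ : W →ₗ[K] K) {w : W} (hw : φ w ≠ 0) (L : List W) :
    ∀ S : Submodule K W, S ≤ LinearMap.ker φ →
      T q (n + 1) L (span K {w} ⊔ S) = T q n (L.map (pr φ w)) S := by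
  induction L with
  | nil =>
    intro S hS
    rw [List.map_nil, T_nil, T_nil, finrank_span_sup φ hw hS]
    congr 1
    omega
  | cons x L ih =>
    intro S hS
    have hx : span K {w} ⊔ S ⊔ span K {x} = span K {w} ⊔ (S ⊔ span K {pr φ w x}) := by
      apply le_antisymm
      · refine sup_le (sup_le le_sup_left (le_sup_left.trans le_sup_right)) ?_
        rw [span_singleton_le_iff_mem]
        have h1 : (φ x / φ w) • w + pr φ w x = x := by rw [pr]; abel
        have h2 : (φ x / φ w) • w + pr φ w x ∈ span K {w} ⊔ (S ⊔ span K {pr φ w x}) :=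
          add_mem (smul_mem _ _ (mem_sup_left (mem_span_singleton_self w)))
            (mem_sup_right (mem_sup_right (mem_span_singleton_self _)))
        rw [h1] at h2
        exact h2
      · refine sup_le (le_sup_left.trans le_sup_left) (sup_le (le_sup_right.trans le_sup_left) ?_)
        rw [span_singleton_le_iff_mem]
        exact pr_mem (mem_sup_right (mem_span_singleton_self x))
          (mem_sup_left (mem_sup_left (mem_span_singleton_self w)))
    rw [List.map_cons, T_cons, T_cons, hx, ih S hS, ih (S ⊔ span K {pr φ w x}) ?_]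
    refine sup_le hS ?_
    rw [span_singleton_le_iff_mem]
    exact pr_ker φ hw x

omit [FiniteDimensional K W] in
lemma T_mul (q : A) {V : Submodule K W} [FiniteDimensional K V] (L : List W)
    (hL : ∀ x ∈ L, x ∈ V) :
    ∀ S : Submodule K W, S ≤ V → T q (finrank K V + 1) L S = q * T q (finrank K V) L S := by
  induction L with
  | nil =>
    intro S hS
    have := finrank_mono hS
    rw [T_nil, T_nil, ← pow_succ']
    congr 1
    omega
  | cons x L ih =>
    intro S hS
    have hx : x ∈ V := hL x List.mem_cons_self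
    have hL' : ∀ x ∈ L, x ∈ V := fun y hy => hL y (List.mem_cons_of_mem _ hy)
    rw [T_cons, T_cons, ih hL' S hS, ih hL' (S ⊔ span K {x})
      (sup_le hS ((span_singleton_le_iff_mem _ _).2 hx))]
    ring

lemma finrank_inf_ker (φ : W →ₗ[K] K) (Y : Submodule K W) (h : ¬ Y ≤ LinearMap.ker φ) :
    finrank K ↥(Y ⊓ LinearMap.ker φ) + 1 = finrank K Y := by
  obtain ⟨w, hwY, hw⟩ := SetLike.not_le_iff_exists.1 h
  rw [LinearMap.mem_ker] at hw
  rw [← finrank_span_sup φ hw (inf_le_right : Y ⊓ LinearMap.ker φ ≤ LinearMap.ker φ)]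
  have : span K {w} ⊔ Y ⊓ LinearMap.ker φ = Y := by
    apply le_antisymm
    · exact sup_le ((span_singleton_le_iff_mem _ _).2 hwY) inf_le_left
    · intro y hy
      have h1 : (φ y / φ w) • w + pr φ w y = y := by rw [pr]; abel
      have h2 : (φ y / φ w) • w + pr φ w y ∈ span K {w} ⊔ Y ⊓ LinearMap.ker φ :=
        add_mem (smul_mem _ _ (mem_sup_left (mem_span_singleton_self w)))
          (mem_sup_right ⟨pr_mem hy hwY, pr_ker φ hw y⟩)
      rw [h1] at h2
      exact h2
  rw [this]

lemma map_pr_of_ker (φ : W →ₗ[K] K) (w : W) {L : List W} (hL : ∀ x ∈ L, φ x = 0) :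
    L.map (pr φ w) = L := by
  conv_rhs => rw [← List.map_id L]
  exact List.map_congr_left fun x hx => pr_of_ker φ (hL x hx)

/-- the term with `w` contracted -/
lemma T_contract (q : A) (n : ℕ) (φ : W →ₗ[K] K) {w : W} (hw : φ w ≠ 0) (B : List W)
    {E' : List W} (hE' : ∀ x ∈ E', φ x = 0) :
    T q (n + 1) (B ++ E') (⊥ ⊔ span K {w}) =
      T q n (B.map (pr φ w) ++ E') (⊥ : Submodule K W) := by
  rw [sup_comm, T_proj q n φ hw _ ⊥ bot_le, List.map_append, map_pr_of_ker φ w hE']

end Ring

variable [FiniteDimensional K W]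

/-- Everything that is used about the configurations on the hyperplane. -/
structure Hyp (q : ℂ) (c : ℝ) (n : ℕ) (V : Submodule K W) (E R : List W) : Prop where
  ne : T q n E (⊥ : Submodule K W) ≠ 0
  le : ∀ L : List W, (∀ x ∈ L, x ∈ V ∧ x ∈ span K {y | y ∈ R}) →
    ‖T q n (L ++ E) (⊥ : Submodule K W)‖ ≤ c ^ L.length * ‖T q n E (⊥ : Submodule K W)‖

/-- Lower bound for the characteristic polynomial. -/
lemma low (q : ℂ) (c : ℝ) (hc : 1 < c) (φ : W →ₗ[K] K) {V : Submodule K W} {E' R' : List W}
    (hV : ¬ V ≤ LinearMap.ker φ) (hE'V : ∀ x ∈ E', x ∈ V) (hE' : ∀ x ∈ E', φ x = 0)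
    (ih : Hyp q c (finrank K ↥(V ⊓ LinearMap.ker φ)) (V ⊓ LinearMap.ker φ) E' R')
    (B : List W) (hB : ∀ x ∈ B, x ∈ V ∧ φ x ≠ 0 ∧ x ∈ span K {y | y ∈ R'}) :
    (B = [] → ‖T q (finrank K V) (B ++ E') (⊥ : Submodule K W)‖ = ‖q‖ *
      ‖T q (finrank K ↥(V ⊓ LinearMap.ker φ)) E' (⊥ : Submodule K W)‖) ∧
    (B ≠ [] → ((c - 1) * ‖q - 1‖ - (c ^ B.length - c)) *
      ‖T q (finrank K ↥(V ⊓ LinearMap.ker φ)) E' (⊥ : Submodule K W)‖ ≤
      (c - 1) * ‖T q (finrank K V) (B ++ E') (⊥ : Submodule K W)‖) := by
  have hfr := finrank_inf_ker φ V hV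
  set n := finrank K ↥(V ⊓ LinearMap.ker φ) with hn
  have hmul : T q (n + 1) E' (⊥ : Submodule K W) = q * T q n E' (⊥ : Submodule K W) := by
    rw [hn]
    exact T_mul q (V := V ⊓ LinearMap.ker φ) E' (fun x hx => ⟨hE'V x hx, LinearMap.mem_ker.2 (hE' x hx)⟩) ⊥ bot_le
  rw [← hfr]
  refine ⟨?_, ?_⟩
  · rintro rfl
    rw [List.nil_append, hmul, norm_mul]
  · intro hne
    induction B with
    | nil => exact absurd rfl hne
    | cons b B hind =>
      obtain ⟨hbV, hb, hbR⟩ := hB b List.mem_cons_self
      have hB' : ∀ x ∈ B, x ∈ V ∧ φ x ≠ 0 ∧ x ∈ span K {y | y ∈ R'} :=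
        fun x hx => hB x (List.mem_cons_of_mem _ hx)
      rw [List.cons_append, T_cons, T_contract q n φ hb B hE']
      have h2 : ‖T q n (B.map (pr φ b) ++ E') (⊥ : Submodule K W)‖ ≤
          c ^ B.length * ‖T q n E' (⊥ : Submodule K W)‖ := by
        have := ih.le (B.map (pr φ b)) (by
          intro x hx
          obtain ⟨y, hy, rfl⟩ := List.mem_map.1 hx
          exact ⟨⟨pr_mem (hB' y hy).1 hbV, pr_ker φ hb y⟩, pr_mem (hB' y hy).2.2 hbR⟩)
        rwa [List.length_map] at this
      rcases eq_or_ne B [] with rfl | hBne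
      · rw [List.nil_append, hmul, List.map_nil, List.nil_append]
        have h3 : q * T q n E' (⊥ : Submodule K W) - T q n E' (⊥ : Submodule K W) =
            (q - 1) * T q n E' (⊥ : Submodule K W) := by ring
        rw [h3, norm_mul]
        simp only [List.length_cons, List.length_nil, zero_add, pow_one, sub_self, sub_zero]
        rw [mul_assoc]
      · have h4 := hind hB' hBne
        have h5 : ‖T q (n + 1) (B ++ E') (⊥ : Submodule K W)‖ -
            ‖T q n (B.map (pr φ b) ++ E') (⊥ : Submodule K W)‖ ≤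
            ‖T q (n + 1) (B ++ E') (⊥ : Submodule K W) -
              T q n (B.map (pr φ b) ++ E') (⊥ : Submodule K W)‖ := norm_sub_norm_le _ _
        rw [List.length_cons, pow_succ]
        have h6 : 0 ≤ c - 1 := by linarith
        nlinarith [mul_le_mul_of_nonneg_left h5 h6, mul_le_mul_of_nonneg_left h2 h6]

/-- **Main estimate.** -/
theorem main (q : ℂ) (c : ℝ) (hc : 1 < c) (hc2 : c < 2) (D : ℕ) (hD : 1 ≤ D)
    (hq : 2 * c ^ D - c ≤ (c - 1) * ‖q - 1‖) (P : Set (W →ₗ[K] K)) (n : ℕ) :
    ∀ (V : Submodule K W) (E R : List W), finrank K V = n → (∀ x ∈ E, x ∈ V) →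
      (∀ x ∈ E, x ≠ 0) → (∀ u ∈ V, u ≠ 0 → ∃ φ ∈ P, φ u ≠ 0) →
      (∀ φ ∈ P, ∀ p : W → Bool, (∀ x, p x = true ↔ φ x ≠ 0) →
        E.countP p + R.countP p ≤ D + 1) →
      Hyp q c n V E R := by
  classical
  have hcpow : c ≤ c ^ D := by
    calc c = c ^ 1 := (pow_one c).symm
      _ ≤ c ^ D := pow_le_pow_right₀ hc.le hD
  have hq1 : c ≤ (c - 1) * ‖q - 1‖ := by linarith
  have hq0 : 1 ≤ (c - 1) * ‖q‖ := by
    have h1 : ‖q - 1‖ ≤ ‖q‖ + ‖(1 : ℂ)‖ := norm_sub_le _ _
    rw [norm_one] at h1
    nlinarith
  have hqpos : 0 < ‖q‖ := by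
    by_contra h
    have : ‖q‖ ≤ 0 := not_lt.1 h
    nlinarith
  induction n with
  | zero =>
    intro V E R hV hE hE0 _ _
    have hVbot : V = ⊥ := finrank_eq_zero.1 hV
    have hEe : E = [] := by
      rw [List.eq_nil_iff_forall_not_mem]
      intro x hx
      have := hE x hx
      rw [hVbot, mem_bot] at this
      exact hE0 x hx this
    subst hEe
    refine ⟨by rw [T_nil]; simp, ?_⟩
    intro L hL
    rcases L with _ | ⟨x, L⟩
    · simp
    · have hx0 : x = 0 := by
        have := (hL x List.mem_cons_self).1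
        rwa [hVbot, mem_bot] at this
      rw [T_of_mem_zero q 0 (by rw [hx0]; simp), norm_zero]
      positivity
  | succ n ih =>
    intro V E R hV hE hE0 hP hk
    have key : ∀ φ ∈ P, ¬ V ≤ LinearMap.ker φ → ∃ A E' : List W,
        E.Perm (A ++ E') ∧ (∀ x ∈ E', φ x = 0) ∧ (∀ x ∈ A, φ x ≠ 0) ∧
        finrank K ↥(V ⊓ LinearMap.ker φ) = n ∧
        Hyp q c (finrank K ↥(V ⊓ LinearMap.ker φ)) (V ⊓ LinearMap.ker φ) E' (A ++ R) ∧
        A.length ≤ D + 1 ∧ ((∃ x ∈ R, φ x ≠ 0) → A.length ≤ D) := by
      intro φ hφ hφV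
      have hfr := finrank_inf_ker φ V hφV
      have hn : finrank K ↥(V ⊓ LinearMap.ker φ) = n := by omega
      set p : W → Bool := fun x => decide (φ x ≠ 0) with hp
      have hpx : ∀ x, p x = true ↔ φ x ≠ 0 := fun x => by simp [hp]
      have hcount := hk φ hφ p hpx
      refine ⟨E.filter p, E.filter (fun x => !p x), (List.filter_append_perm p E).symm, ?_, ?_,
        hn, ?_, ?_, ?_⟩
      · intro x hx
        have := (List.mem_filter.1 hx).2
        by_contra h
        rw [(hpx x).2 h] at this
        simp at this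
      · intro x hx
        exact (hpx x).1 (List.mem_filter.1 hx).2
      · rw [hn]
        apply ih _ _ _ hn
        · intro x hx
          have h1 := List.mem_filter.1 hx
          refine ⟨hE x h1.1, LinearMap.mem_ker.2 ?_⟩
          by_contra h
          have h2 := h1.2
          rw [(hpx x).2 h] at h2
          simp at h2
        · intro x hx
          exact hE0 x (List.mem_filter.1 hx).1
        · intro u hu hu0
          exact hP u hu.1 hu0
        · intro ψ hψ r hr
          have h1 := hk ψ hψ r hr
          have h2 : (E.filter p ++ E.filter (fun x => !p x)).countP r = E.countP r :=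
            (List.filter_append_perm p E).countP_eq r
          rw [List.countP_append] at h2
          rw [List.countP_append]
          omega
      · rw [← List.countP_eq_length_filter]
        omega
      · rintro ⟨x, hxR, hx⟩
        have h1 : 0 < R.countP p := List.countP_pos_iff.2 ⟨x, hxR, (hpx x).2 hx⟩
        rw [← List.countP_eq_length_filter]
        omega
    have lowA : ∀ φ ∈ P, ¬ V ≤ LinearMap.ker φ → ∀ A E' : List W,
        E.Perm (A ++ E') → (∀ x ∈ E', φ x = 0) → (∀ x ∈ A, φ x ≠ 0) →
        Hyp q c (finrank K ↥(V ⊓ LinearMap.ker φ)) (V ⊓ LinearMap.ker φ) E' (A ++ R) →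
        (A = [] → ‖T q (finrank K V) E (⊥ : Submodule K W)‖ = ‖q‖ *
          ‖T q (finrank K ↥(V ⊓ LinearMap.ker φ)) E' (⊥ : Submodule K W)‖) ∧
        (A ≠ [] → ((c - 1) * ‖q - 1‖ - (c ^ A.length - c)) *
          ‖T q (finrank K ↥(V ⊓ LinearMap.ker φ)) E' (⊥ : Submodule K W)‖ ≤
          (c - 1) * ‖T q (finrank K V) E (⊥ : Submodule K W)‖) := by
      intro φ _ hφV A E' hperm hE' hA hyp
      have hEV : ∀ x ∈ A ++ E', x ∈ V := fun x hx => hE x (hperm.mem_iff.2 hx)
      have := low q c hc φ hφV (fun x hx => hEV x (List.mem_append_right _ hx)) hE' hyp A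
        (fun x hx => ⟨hEV x (List.mem_append_left _ hx), hA x hx,
          subset_span (by simp [hx])⟩)
      rwa [T_perm q (finrank K V) hperm]
    have hVne : V ≠ ⊥ := by
      rintro rfl
      simp at hV
    obtain ⟨u0, hu0V, hu0⟩ := exists_mem_ne_zero_of_ne_bot hVne
    refine ⟨?_, ?_⟩
    · obtain ⟨φ, hφ, hφu⟩ := hP u0 hu0V hu0
      have hφV : ¬ V ≤ LinearMap.ker φ := fun h => hφu (LinearMap.mem_ker.1 (h hu0V))
      obtain ⟨A, E', hperm, hE', hA, hn, hyp, hlen, _⟩ := key φ hφ hφV
      obtain ⟨h1, h2⟩ := lowA φ hφ hφV A E' hperm hE' hA hyp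
      have hpos := norm_pos_iff.2 hyp.ne
      rw [← hV]
      rcases eq_or_ne A [] with hA0 | hA0
      · rw [← norm_pos_iff, h1 hA0]
        positivity
      · have h3 := h2 hA0
        have h4 : c ^ A.length ≤ c ^ (D + 1) := pow_le_pow_right₀ hc.le hlen
        have h5 : c ^ (D + 1) < 2 * c ^ D := by
          rw [pow_succ]
          have : 0 < c ^ D := by positivity
          nlinarith
        have h6 : 0 < (c - 1) * ‖q - 1‖ - (c ^ A.length - c) := by linarith
        have h7 := (mul_pos h6 hpos).trans_le h3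
        rw [← norm_pos_iff]
        exact (mul_pos_iff_of_pos_left (by linarith)).1 h7
    · intro L
      induction L with
      | nil => intro _; simp
      | cons w L hind =>
        intro hL
        have hL' : ∀ x ∈ L, x ∈ V ∧ x ∈ span K {y | y ∈ R} :=
          fun x hx => hL x (List.mem_cons_of_mem _ hx)
        obtain ⟨hwV, hwR⟩ := hL w List.mem_cons_self
        have hind' := hind hL'
        rw [List.cons_append, T_cons, List.length_cons, pow_succ]
        by_cases hw0 : w = 0
        · subst hw0
          rw [span_zero_singleton, sup_bot_eq, sub_self, norm_zero]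
          positivity
        obtain ⟨φ, hφ, hφw⟩ := hP w hwV hw0
        have hφV : ¬ V ≤ LinearMap.ker φ := fun h => hφw (LinearMap.mem_ker.1 (h hwV))
        obtain ⟨A, E', hperm, hE', hA, hn, hyp, _, hlen⟩ := key φ hφ hφV
        obtain ⟨h1, h2⟩ := lowA φ hφ hφV A E' hperm hE' hA hyp
        have hex : ∃ x ∈ R, φ x ≠ 0 := by
          by_contra hcon
          push Not at hcon
          apply hφw
          have : span K {y | y ∈ R} ≤ LinearMap.ker φ := by
            rw [span_le]
            intro y hy
            exact LinearMap.mem_ker.2 (hcon y hy)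
          exact LinearMap.mem_ker.1 (this hwR)
        have hlenA := hlen hex
        have hEV : ∀ x ∈ A ++ E', x ∈ V := fun x hx => hE x (hperm.mem_iff.2 hx)
        have hperm2 : (L ++ E).Perm ((L ++ A) ++ E') := by
          rw [List.append_assoc]
          exact hperm.append_left L
        have hRle : span K {y | y ∈ R} ≤ span K {y | y ∈ A ++ R} :=
          span_mono fun y hy => List.mem_append_right A hy
        have h3 : T q (n + 1) (L ++ E) (⊥ ⊔ span K {w}) =
            T q (finrank K ↥(V ⊓ LinearMap.ker φ)) ((L ++ A).map (pr φ w) ++ E')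
              (⊥ : Submodule K W) := by
          rw [T_perm q (n + 1) hperm2, hn, T_contract q n φ hφw (L ++ A) hE']
        have h4 : ‖T q (finrank K ↥(V ⊓ LinearMap.ker φ)) ((L ++ A).map (pr φ w) ++ E')
              (⊥ : Submodule K W)‖ ≤ c ^ (L.length + A.length) *
              ‖T q (finrank K ↥(V ⊓ LinearMap.ker φ)) E' (⊥ : Submodule K W)‖ := by
          have := hyp.le ((L ++ A).map (pr φ w)) (by
            intro x hx
            obtain ⟨y, hy, rfl⟩ := List.mem_map.1 hx
            have hy2 : y ∈ V ∧ y ∈ span K {y | y ∈ A ++ R} := by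
              rcases List.mem_append.1 hy with hy | hy
              · exact ⟨(hL' y hy).1, hRle (hL' y hy).2⟩
              · exact ⟨hEV y (List.mem_append_left _ hy),
                  subset_span (List.mem_append_left _ hy)⟩
            exact ⟨⟨pr_mem hy2.1 hwV, pr_ker φ hφw y⟩, pr_mem hy2.2 (hRle hwR)⟩)
          rwa [List.length_map, List.length_append] at this
        have h5 : c ^ A.length *
            ‖T q (finrank K ↥(V ⊓ LinearMap.ker φ)) E' (⊥ : Submodule K W)‖ ≤
            (c - 1) * ‖T q (n + 1) E (⊥ : Submodule K W)‖ := by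
          rw [← hV]
          have hZ := norm_nonneg
            (T q (finrank K ↥(V ⊓ LinearMap.ker φ)) E' (⊥ : Submodule K W))
          rcases eq_or_ne A [] with hA0 | hA0
          · rw [h1 hA0, hA0]
            simp only [List.length_nil, pow_zero, one_mul]
            nlinarith
          · have h6 := h2 hA0
            have h7 : c ^ A.length ≤ c ^ D := pow_le_pow_right₀ hc.le hlenA
            nlinarith
        rw [h3]
        have h8 := norm_sub_le (T q (n + 1) (L ++ E) (⊥ : Submodule K W))
          (T q (finrank K ↥(V ⊓ LinearMap.ker φ)) ((L ++ A).map (pr φ w) ++ E')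
              (⊥ : Submodule K W))
        have h9 : c ^ (L.length + A.length) *
              ‖T q (finrank K ↥(V ⊓ LinearMap.ker φ)) E' (⊥ : Submodule K W)‖ ≤
              c ^ L.length * ((c - 1) * ‖T q (n + 1) E (⊥ : Submodule K W)‖) := by
          rw [pow_add, mul_assoc]
          exact mul_le_mul_of_nonneg_left h5 (by positivity)
        calc _ ≤ _ := h8
          _ ≤ c ^ L.length * ‖T q (n + 1) E (⊥ : Submodule K W)‖ +
              c ^ L.length * ((c - 1) * ‖T q (n + 1) E (⊥ : Submodule K W)‖) :=
            add_le_add hind' (h4.trans h9)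
          _ = _ := by ring

end Pool.Agent.Y358.MM
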