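import Pool.Agent.Y358.MM.Sum

/-!
# Zero-free region, version with discs

The quotients of the characteristic polynomials of the enlarged configuration (by a list of `s`
vectors) and of the configuration itself lie in the disc with the real centre `x s` and radius
`y s`; the quotients of a configuration and its part on a hyperplane lie in a half plane.
-/

set_option autoImplicit false

namespace Pool.Agent.Y358.MM

open Module Submodule

variable {K W : Type*} [Field K] [AddCommGroup W] [Module K W] [FiniteDimensional K W]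

/-- Everything that is used about the configurations on the hyperplane (version with discs). -/
structure HypD (q : ℂ) (x y : ℕ → ℝ) (n : ℕ) (V : Submodule K W) (E R : List W) : Prop where
  ne : T q n E (⊥ : Submodule K W) ≠ 0
  disc : ∀ L : List W, (∀ v ∈ L, v ∈ V ∧ v ∈ span K {w | w ∈ R}) → (0 : W) ∉ L →
    ‖T q n (L ++ E) (⊥ : Submodule K W) - x L.length * T q n E (⊥ : Submodule K W)‖ ≤
      y L.length * ‖T q n E (⊥ : Submodule K W)‖

/-- a point of the disc with diameter from `0` to `u / R`, from the half plane -/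
lemma half_plane {u r z z' : ℂ} {R : ℝ} (hR : 0 < R) (hu : ‖u‖ = 1) (hz : z = r * z')
    (hr : R ≤ (u * r).re) : ‖z' - (u / (2 * R)) * z‖ ≤ 1 / (2 * R) * ‖z‖ := by
  have h1 : z' - (u / (2 * R)) * z = z' * (2 * R - u * r) / (2 * R) := by
    have : (R : ℂ) ≠ 0 := by exact_mod_cast hR.ne'
    rw [hz]
    field_simp
  have h2 : ‖(2 * R : ℂ)‖ = 2 * R := by
    rw [show (2 * R : ℂ) = ((2 * R : ℝ) : ℂ) by push_cast; ring, Complex.norm_real,
      Real.norm_of_nonneg (by positivity)]
  have h3 : ‖(2 * R - u * r : ℂ)‖ ≤ ‖r‖ := by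
    have h4 : ‖r‖ = ‖u * r‖ := by rw [norm_mul, hu, one_mul]
    rw [h4]
    set p := u * r with hp
    have h5 : ‖(2 * R - p : ℂ)‖ ^ 2 ≤ ‖p‖ ^ 2 := by
      rw [Complex.sq_norm, Complex.sq_norm, Complex.normSq_apply, Complex.normSq_apply]
      have e1 : (2 * R - p : ℂ).re = 2 * R - p.re := by simp
      have e2 : (2 * R - p : ℂ).im = -p.im := by simp
      rw [e1, e2]
      nlinarith
    exact le_of_sq_le_sq h5 (norm_nonneg _) |> fun h => h
  rw [h1, norm_div, norm_mul, h2, hz, norm_mul]
  rw [div_le_iff₀ (by positivity)]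
  have h6 : 1 / (2 * R) * (‖r‖ * ‖z'‖) * (2 * R) = ‖r‖ * ‖z'‖ := by field_simp
  rw [h6, mul_comm]
  exact mul_le_mul_of_nonneg_right h3 (norm_nonneg _)

lemma lowD (q u : ℂ) (x y : ℕ → ℝ) (hu : ‖u‖ = 1) (huq : u * q = (‖q‖ : ℂ)) (φ : W →ₗ[K] K)
    {V : Submodule K W} {E' R' : List W}
    (hV : ¬ V ≤ LinearMap.ker φ) (hE'V : ∀ v ∈ E', v ∈ V) (hE' : ∀ v ∈ E', φ v = 0)
    (ih : HypD q x y (finrank K ↥(V ⊓ LinearMap.ker φ)) (V ⊓ LinearMap.ker φ) E' R')
    (B : List W) (hB : ∀ v ∈ B, v ∈ V ∧ φ v ≠ 0 ∧ v ∈ span K {w | w ∈ R'}) :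
    ∃ r : ℂ, T q (finrank K V) (B ++ E') (⊥ : Submodule K W) =
      r * T q (finrank K ↥(V ⊓ LinearMap.ker φ)) E' (⊥ : Submodule K W) ∧
      ‖q‖ - ∑ i ∈ Finset.range B.length, max 0 (x i * u.re + y i) ≤ (u * r).re := by
  have hfr := finrank_inf_ker φ V hV
  set n := finrank K ↥(V ⊓ LinearMap.ker φ) with hn
  have hmul : T q (n + 1) E' (⊥ : Submodule K W) = q * T q n E' (⊥ : Submodule K W) := by
    rw [hn]
    exact T_mul q (V := V ⊓ LinearMap.ker φ) E'
      (fun v hv => ⟨hE'V v hv, LinearMap.mem_ker.2 (hE' v hv)⟩) ⊥ bot_le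
  rw [← hfr]
  induction B with
  | nil =>
    refine ⟨q, by rw [List.nil_append, hmul], ?_⟩
    rw [huq]
    simp
  | cons b B hind =>
    obtain ⟨hbV, hb, hbR⟩ := hB b List.mem_cons_self
    have hB' : ∀ v ∈ B, v ∈ V ∧ φ v ≠ 0 ∧ v ∈ span K {w | w ∈ R'} :=
      fun v hv => hB v (List.mem_cons_of_mem _ hv)
    obtain ⟨r, hr1, hr2⟩ := hind hB'
    rw [List.cons_append, T_cons, T_contract q n φ hb B hE', hr1]
    set Z := T q n E' (⊥ : Submodule K W) with hZ
    have hZ0 : Z ≠ 0 := ih.ne
    set t := T q n (B.map (pr φ b) ++ E') (⊥ : Submodule K W) with ht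
    have h2 : (u * (t / Z)).re ≤ max 0 (x B.length * u.re + y B.length) := by
      by_cases h0 : (0 : W) ∈ B.map (pr φ b)
      · rw [ht, T_of_mem_zero q n (List.mem_append_left _ h0)]
        simp
      · have h3 := ih.disc (B.map (pr φ b)) (by
          intro v hv
          obtain ⟨w, hw, rfl⟩ := List.mem_map.1 hv
          exact ⟨⟨pr_mem (hB' w hw).1 hbV, pr_ker φ hb w⟩, pr_mem (hB' w hw).2.2 hbR⟩) h0
        rw [List.length_map] at h3
        have h4 : ‖t / Z - x B.length‖ ≤ y B.length := by
          have h5 : t / Z - x B.length = (t - x B.length * Z) / Z := by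
            field_simp
          rw [h5, norm_div, div_le_iff₀ (norm_pos_iff.2 hZ0)]
          exact h3
        have h6 : (u * (t / Z - x B.length)).re ≤ y B.length := by
          refine (Complex.re_le_norm _).trans ?_
          rw [norm_mul, hu, one_mul]
          exact h4
        have h7 : (u * (t / Z - x B.length)).re = (u * (t / Z)).re - x B.length * u.re := by
          rw [mul_sub, Complex.sub_re]
          congr 1
          simp [Complex.mul_re]
          ring
        refine le_trans ?_ (le_max_right _ _)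
        linarith
    refine ⟨r - t / Z, ?_, ?_⟩
    · field_simp
    · rw [mul_sub, Complex.sub_re, List.length_cons, Finset.sum_range_succ]
      linarith

/-- **Main estimate, version with discs.** -/
theorem mainD (q u : ℂ) (hu : ‖u‖ = 1) (huq : u * q = (‖q‖ : ℂ)) (x y : ℕ → ℝ) (ρ : ℝ) (D : ℕ)
    (hx0 : x 0 = 1) (hy0 : y 0 = 0) (hx : ∀ s, 0 ≤ x s) (hy : ∀ s, 0 ≤ y s) (hρ : 0 < ρ)
    (hρq : ρ ≤ ‖q‖ - ∑ i ∈ Finset.range D, max 0 (x i * u.re + y i))
    (hρD : max 0 (x D * u.re + y D) < ρ)
    (hxy : ∀ s, ‖(x (s + 1) - x s : ℂ) + (u / (2 * ρ)) * x (s + D)‖ + 1 / (2 * ρ) * x (s + D) +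
      y (s + D) / ρ ≤ y (s + 1) - y s)
    (P : Set (W →ₗ[K] K)) (n : ℕ) :
    ∀ (V : Submodule K W) (E R : List W), finrank K V = n → (∀ v ∈ E, v ∈ V) →
      (∀ v ∈ E, v ≠ 0) → (∀ v ∈ V, v ≠ 0 → ∃ φ ∈ P, φ v ≠ 0) →
      (∀ φ ∈ P, ∀ p : W → Bool, (∀ v, p v = true ↔ φ v ≠ 0) →
        E.countP p + R.countP p ≤ D + 1) →
      HypD q x y n V E R := by
  classical
  have hub : ∀ s, ‖(u / (2 * ρ)) * (x s : ℂ)‖ = 1 / (2 * ρ) * x s := by
    intro s
    have h2 : ‖(2 * ρ : ℂ)‖ = 2 * ρ := by
      rw [show (2 * ρ : ℂ) = ((2 * ρ : ℝ) : ℂ) by push_cast; ring, Complex.norm_real,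
        Real.norm_of_nonneg (by positivity)]
    rw [norm_mul, norm_div, hu, h2, Complex.norm_real, Real.norm_of_nonneg (hx s)]
  have hnest1 : ∀ s, |x (s + 1) - x s| ≤ y (s + 1) - y s := by
    intro s
    have h1 := norm_sub_le ((x (s + 1) - x s : ℂ) + (u / (2 * ρ)) * x (s + D))
      ((u / (2 * ρ)) * x (s + D))
    rw [add_sub_cancel_right, hub] at h1
    have h2 : ‖(x (s + 1) - x s : ℂ)‖ = |x (s + 1) - x s| := by
      rw [← Complex.ofReal_sub, Complex.norm_real, Real.norm_eq_abs]
    rw [h2] at h1
    have h3 := hxy s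
    have h4 : 0 ≤ y (s + D) / ρ := div_nonneg (hy _) hρ.le
    linarith
  have hnest : ∀ i j : ℕ, i ≤ j → |x i - x j| ≤ y j - y i := by
    intro i j hij
    induction j, hij using Nat.le_induction with
    | base => simp
    | succ j _ ih =>
      have h1 := hnest1 j
      have h2 := abs_sub_le (x i) (x j) (x (j + 1))
      rw [abs_sub_comm (x j)] at h2
      linarith
  have hsum : ∀ i j : ℕ, i ≤ j → ∑ t ∈ Finset.range i, max 0 (x t * u.re + y t) ≤
      ∑ t ∈ Finset.range j, max 0 (x t * u.re + y t) := fun i j hij =>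
    Finset.sum_le_sum_of_subset_of_nonneg (Finset.range_mono hij) fun t _ _ => le_max_left _ _
  induction n with
  | zero =>
    intro V E R hV hE hE0 _ _
    have hVbot : V = ⊥ := finrank_eq_zero.1 hV
    have hEe : E = [] := by
      rw [List.eq_nil_iff_forall_not_mem]
      intro v hv
      have := hE v hv
      rw [hVbot, mem_bot] at this
      exact hE0 v hv this
    subst hEe
    refine ⟨by rw [T_nil]; simp, ?_⟩
    intro L hL h0
    rcases L with _ | ⟨v, L⟩
    · simp [hx0, hy0]
    · have hv0 : v = 0 := by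
        have := (hL v List.mem_cons_self).1
        rwa [hVbot, mem_bot] at this
      exact absurd (by rw [hv0]; simp) h0
  | succ n ih =>
    intro V E R hV hE hE0 hP hk
    have key : ∀ φ ∈ P, ¬ V ≤ LinearMap.ker φ → ∃ A E' : List W,
        E.Perm (A ++ E') ∧ (∀ v ∈ E', φ v = 0) ∧ (∀ v ∈ A, φ v ≠ 0) ∧
        finrank K ↥(V ⊓ LinearMap.ker φ) = n ∧
        HypD q x y (finrank K ↥(V ⊓ LinearMap.ker φ)) (V ⊓ LinearMap.ker φ) E' (A ++ R) ∧
        A.length ≤ D + 1 ∧ ((∃ v ∈ R, φ v ≠ 0) → A.length ≤ D) := by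
      intro φ hφ hφV
      have hfr := finrank_inf_ker φ V hφV
      have hn : finrank K ↥(V ⊓ LinearMap.ker φ) = n := by omega
      set p : W → Bool := fun v => decide (φ v ≠ 0) with hp
      have hpx : ∀ v, p v = true ↔ φ v ≠ 0 := fun v => by simp [hp]
      have hcount := hk φ hφ p hpx
      refine ⟨E.filter p, E.filter (fun v => !p v), (List.filter_append_perm p E).symm, ?_, ?_,
        hn, ?_, ?_, ?_⟩
      · intro v hv
        have := (List.mem_filter.1 hv).2
        by_contra h
        rw [(hpx v).2 h] at this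
        simp at this
      · intro v hv
        exact (hpx v).1 (List.mem_filter.1 hv).2
      · rw [hn]
        apply ih _ _ _ hn
        · intro v hv
          have h1 := List.mem_filter.1 hv
          refine ⟨hE v h1.1, LinearMap.mem_ker.2 ?_⟩
          by_contra h
          have h2 := h1.2
          rw [(hpx v).2 h] at h2
          simp at h2
        · intro v hv
          exact hE0 v (List.mem_filter.1 hv).1
        · intro v hv hv0
          exact hP v hv.1 hv0
        · intro ψ hψ r hr
          have h1 := hk ψ hψ r hr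
          have h2 : (E.filter p ++ E.filter (fun v => !p v)).countP r = E.countP r :=
            (List.filter_append_perm p E).countP_eq r
          rw [List.countP_append] at h2
          rw [List.countP_append]
          omega
      · rw [← List.countP_eq_length_filter]
        omega
      · rintro ⟨v, hvR, hv⟩
        have h1 : 0 < R.countP p := List.countP_pos_iff.2 ⟨v, hvR, (hpx v).2 hv⟩
        rw [← List.countP_eq_length_filter]
        omega
    have lowA : ∀ φ ∈ P, ¬ V ≤ LinearMap.ker φ → ∀ A E' : List W,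
        E.Perm (A ++ E') → (∀ v ∈ E', φ v = 0) → (∀ v ∈ A, φ v ≠ 0) →
        HypD q x y (finrank K ↥(V ⊓ LinearMap.ker φ)) (V ⊓ LinearMap.ker φ) E' (A ++ R) →
        ∃ r : ℂ, T q (finrank K V) E (⊥ : Submodule K W) =
          r * T q (finrank K ↥(V ⊓ LinearMap.ker φ)) E' (⊥ : Submodule K W) ∧
          ‖q‖ - ∑ i ∈ Finset.range A.length, max 0 (x i * u.re + y i) ≤ (u * r).re := by
      intro φ _ hφV A E' hperm hE' hA hyp
      have hEV : ∀ v ∈ A ++ E', v ∈ V := fun v hv => hE v (hperm.mem_iff.2 hv)
      have := lowD q u x y hu huq φ hφV (fun v hv => hEV v (List.mem_append_right _ hv)) hE' hyp A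
        (fun v hv => ⟨hEV v (List.mem_append_left _ hv), hA v hv,
          subset_span (by simp [hv])⟩)
      rwa [T_perm q (finrank K V) hperm]
    have hVne : V ≠ ⊥ := by
      rintro rfl
      simp at hV
    obtain ⟨v0, hv0V, hv0⟩ := exists_mem_ne_zero_of_ne_bot hVne
    refine ⟨?_, ?_⟩
    · obtain ⟨φ, hφ, hφu⟩ := hP v0 hv0V hv0
      have hφV : ¬ V ≤ LinearMap.ker φ := fun h => hφu (LinearMap.mem_ker.1 (h hv0V))
      obtain ⟨A, E', hperm, hE', hA, hn, hyp, hlen, _⟩ := key φ hφ hφV
      obtain ⟨r, hr1, hr2⟩ := lowA φ hφ hφV A E' hperm hE' hA hyp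
      have h1 := hsum _ _ hlen
      rw [Finset.sum_range_succ] at h1
      have h2 : 0 < (u * r).re := by linarith
      have h3 : r ≠ 0 := by
        rintro rfl
        simp at h2
      rw [← hV, hr1]
      exact mul_ne_zero h3 hyp.ne
    · intro L
      induction L with
      | nil =>
        intro _ _
        simp [hx0, hy0]
      | cons w L hind =>
        intro hL h0
        have hw0 : w ≠ 0 := fun h => h0 (by rw [h]; simp)
        have hL' : ∀ v ∈ L, v ∈ V ∧ v ∈ span K {w | w ∈ R} :=
          fun v hv => hL v (List.mem_cons_of_mem _ hv)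
        have hind' := hind hL' (fun h => h0 (List.mem_cons_of_mem _ h))
        obtain ⟨hwV, hwR⟩ := hL w List.mem_cons_self
        obtain ⟨φ, hφ, hφw⟩ := hP w hwV hw0
        have hφV : ¬ V ≤ LinearMap.ker φ := fun h => hφw (LinearMap.mem_ker.1 (h hwV))
        obtain ⟨A, E', hperm, hE', hA, hn, hyp, _, hlen⟩ := key φ hφ hφV
        obtain ⟨r, hr1, hr2⟩ := lowA φ hφ hφV A E' hperm hE' hA hyp
        have hex : ∃ v ∈ R, φ v ≠ 0 := by
          by_contra hcon
          push Not at hcon
          apply hφw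
          have : span K {w | w ∈ R} ≤ LinearMap.ker φ := by
            rw [span_le]
            intro v hv
            exact LinearMap.mem_ker.2 (hcon v hv)
          exact LinearMap.mem_ker.1 (this hwR)
        have hlenA := hlen hex
        have hEV : ∀ v ∈ A ++ E', v ∈ V := fun v hv => hE v (hperm.mem_iff.2 hv)
        have hperm2 : (L ++ E).Perm ((L ++ A) ++ E') := by
          rw [List.append_assoc]
          exact hperm.append_left L
        have hRle : span K {w | w ∈ R} ≤ span K {w | w ∈ A ++ R} :=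
          span_mono fun v hv => List.mem_append_right A hv
        have h3 : T q (n + 1) (L ++ E) (⊥ ⊔ span K {w}) =
            T q (finrank K ↥(V ⊓ LinearMap.ker φ)) ((L ++ A).map (pr φ w) ++ E')
              (⊥ : Submodule K W) := by
          rw [T_perm q (n + 1) hperm2, hn, T_contract q n φ hφw (L ++ A) hE']
        have hmem : ∀ v ∈ (L ++ A).map (pr φ w), v ∈ V ⊓ LinearMap.ker φ ∧
            v ∈ span K {y | y ∈ A ++ R} := by
          intro v hv
          obtain ⟨v', hv', rfl⟩ := List.mem_map.1 hv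
          have hv2 : v' ∈ V ∧ v' ∈ span K {y | y ∈ A ++ R} := by
            rcases List.mem_append.1 hv' with hv' | hv'
            · exact ⟨(hL' v' hv').1, hRle (hL' v' hv').2⟩
            · exact ⟨hEV v' (List.mem_append_left _ hv'),
                subset_span (List.mem_append_left _ hv')⟩
          exact ⟨⟨pr_mem hv2.1 hwV, pr_ker φ hφw v'⟩, pr_mem hv2.2 (hRle hwR)⟩
        rw [List.cons_append, T_cons, h3, List.length_cons]
        rw [hV] at hr1
        set Z := T q (n + 1) E (⊥ : Submodule K W) with hZ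
        set Z' := T q (finrank K ↥(V ⊓ LinearMap.ker φ)) E' (⊥ : Submodule K W) with hZ'
        set t := T q (finrank K ↥(V ⊓ LinearMap.ker φ)) ((L ++ A).map (pr φ w) ++ E')
              (⊥ : Submodule K W) with ht
        set s := L.length with hs
        have hr3 : ρ ≤ (u * r).re := by
          have := hsum _ _ hlenA
          linarith
        have hhalf := half_plane hρ hu hr1 hr3
        have hZle : ‖Z'‖ ≤ ‖Z‖ / ρ := by
          rw [le_div_iff₀ hρ, hr1, norm_mul]
          have h5 : ρ ≤ ‖r‖ := by
            have h6 := Complex.re_le_norm (u * r)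
            rw [norm_mul, hu, one_mul] at h6
            linarith
          rw [mul_comm]
          exact mul_le_mul_of_nonneg_right h5 (norm_nonneg _)
        have hZ0 := norm_nonneg Z
        have hZ0' := norm_nonneg Z'
        have htt : ‖t - (u / (2 * ρ)) * x (s + D) * Z‖ ≤
            (1 / (2 * ρ) * x (s + D) + y (s + D) / ρ) * ‖Z‖ := by
          by_cases h00 : (0 : W) ∈ (L ++ A).map (pr φ w)
          · rw [ht, T_of_mem_zero q _ (List.mem_append_left _ h00), zero_sub, norm_neg, norm_mul,
              hub]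
            have : 0 ≤ y (s + D) / ρ := div_nonneg (hy _) hρ.le
            nlinarith
          · have h4 := hyp.disc _ hmem h00
            rw [List.length_map, List.length_append] at h4
            have h5 := hnest (s + A.length) (s + D) (by omega)
            have h6 : ‖t - x (s + D) * Z'‖ ≤ y (s + D) * ‖Z'‖ := by
              have h7 : t - x (s + D) * Z' = (t - x (s + A.length) * Z') +
                  ((x (s + A.length) - x (s + D) : ℝ) : ℂ) * Z' := by
                push_cast
                ring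
              rw [h7]
              refine (norm_add_le _ _).trans ?_
              rw [norm_mul, Complex.norm_real, Real.norm_eq_abs]
              have h8 := mul_le_mul_of_nonneg_right h5 hZ0'
              rw [sub_mul] at h8
              linarith
            have h9 : t - (u / (2 * ρ)) * x (s + D) * Z = (t - x (s + D) * Z') +
                x (s + D) * (Z' - (u / (2 * ρ)) * Z) := by ring
            rw [h9]
            refine (norm_add_le _ _).trans ?_
            rw [norm_mul, Complex.norm_real, Real.norm_of_nonneg (hx _)]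
            have h10 := mul_le_mul_of_nonneg_left hhalf (hx (s + D))
            have h11 := mul_le_mul_of_nonneg_left hZle (hy (s + D))
            have h12 : (1 / (2 * ρ) * x (s + D) + y (s + D) / ρ) * ‖Z‖ =
                x (s + D) * (1 / (2 * ρ) * ‖Z‖) + y (s + D) * (‖Z‖ / ρ) := by ring
            rw [h12]
            linarith
        have hfin : T q (n + 1) (L ++ E) (⊥ : Submodule K W) - t - x (s + 1) * Z =
            (T q (n + 1) (L ++ E) (⊥ : Submodule K W) - x s * Z) -
            (t - (u / (2 * ρ)) * x (s + D) * Z) -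
            ((x (s + 1) - x s : ℂ) + (u / (2 * ρ)) * x (s + D)) * Z := by ring
        rw [hfin]
        refine (norm_sub_le _ _).trans ?_
        refine (add_le_add_left (norm_sub_le _ _) _).trans ?_
        rw [norm_mul]
        have h13 := mul_le_mul_of_nonneg_right (hxy s) hZ0
        have h14 : ((‖(x (s + 1) - x s : ℂ) + (u / (2 * ρ)) * x (s + D)‖ + 1 / (2 * ρ) * x (s + D) +
          y (s + D) / ρ)) * ‖Z‖ = ‖(x (s + 1) - x s : ℂ) + (u / (2 * ρ)) * x (s + D)‖ * ‖Z‖ +
            (1 / (2 * ρ) * x (s + D) + y (s + D) / ρ) * ‖Z‖ := by ring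
        rw [h14, sub_mul] at h13
        linarith

end Pool.Agent.Y358.MM
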