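import Pool.Agent.Y358.MM.DiscNum
import Pool.Agent.Y358.MM.RealNum

/-!
# Flow polynomials

The evaluations at the edges on the cycle space over `ZMod 2`, with the functionals given by the
short cycles.
-/

set_option autoImplicit false

namespace Pool.Agent.Y358.MM.Flow

open Module Submodule

variable {n m : ℕ}

/-- the graph with the edges in `A` -/
def und (ends : Fin m → Fin n × Fin n) (A : Finset (Fin m)) : SimpleGraph (Fin n) :=
  SimpleGraph.fromRel (fun u v : Fin n => ∃ f ∈ A, ends f = (u, v))

/-- the incidence vector of an edge -/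
def inc (ends : Fin m → Fin n × Fin n) (e : Fin m) : Fin n → ZMod 2 :=
  Pi.single (ends e).1 1 + Pi.single (ends e).2 1

/-- number of components and rank over `ZMod 2` -/
lemma finrank_inc (ends : Fin m → Fin n × Fin n) (A : Finset (Fin m)) :
    finrank (ZMod 2) (span (ZMod 2) (inc ends '' (A : Set (Fin m)))) +
      Nat.card (und ends A).ConnectedComponent = n := by
  classical
  set H := und ends A with hH
  have : Finite H.ConnectedComponent := Quot.finite _
  have : Fintype H.ConnectedComponent := Fintype.ofFinite _
  let T : (H.ConnectedComponent → ZMod 2) →ₗ[ZMod 2] ((Fin n → ZMod 2) →ₗ[ZMod 2] ZMod 2) :=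
    { toFun := fun f => ∑ z : Fin n, f (H.connectedComponentMk z) • LinearMap.proj z
      map_add' := by
        intro f g
        simp only [Pi.add_apply, add_smul, Finset.sum_add_distrib]
      map_smul' := by
        intro c f
        simp only [Pi.smul_apply, smul_eq_mul, mul_smul, Finset.smul_sum, RingHom.id_apply] }
  have hT : ∀ f z, T f (Pi.single z 1) = f (H.connectedComponentMk z) := by
    intro f z
    simp only [T, LinearMap.coe_mk, AddHom.coe_mk, LinearMap.coe_sum, Finset.sum_apply,
      LinearMap.smul_apply, LinearMap.proj_apply, smul_eq_mul]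
    rw [Finset.sum_eq_single z]
    · simp
    · intro b _ hb
      rw [Pi.single_eq_of_ne hb]
      simp
    · intro h
      exact absurd (Finset.mem_univ z) h
  have hinj : Function.Injective T := by
    intro f g hfg
    ext c
    induction c using SimpleGraph.ConnectedComponent.ind with
    | _ z =>
      rw [← hT f z, ← hT g z, hfg]
  have hchar : ∀ t : ZMod 2, t + t = 0 := by decide
  have hchar2 : ∀ s t : ZMod 2, s + t = 0 → s = t := by decide
  have hrange : LinearMap.range T =
      (span (ZMod 2) (inc ends '' (A : Set (Fin m)))).dualAnnihilator := by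
    apply le_antisymm
    · rintro _ ⟨f, rfl⟩
      rw [mem_dualAnnihilator]
      intro w hw
      induction hw using Submodule.span_induction with
      | mem x hx =>
        obtain ⟨e, he, rfl⟩ := hx
        unfold inc
        rw [map_add, hT, hT]
        have : H.connectedComponentMk (ends e).1 = H.connectedComponentMk (ends e).2 := by
          by_cases hne : (ends e).1 = (ends e).2
          · rw [hne]
          · apply SimpleGraph.ConnectedComponent.sound
            apply SimpleGraph.Adj.reachable
            rw [hH]
            unfold und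
            rw [SimpleGraph.fromRel_adj]
            exact ⟨hne, Or.inl ⟨e, he, rfl⟩⟩
        rw [this]
        exact hchar _
      | zero => simp
      | add x y _ _ h1 h2 => rw [map_add, h1, h2, add_zero]
      | smul c x _ h => rw [map_smul, h, smul_zero]
    · intro φ hφ
      rw [mem_dualAnnihilator] at hφ
      have hadj : ∀ x y, H.Adj x y → φ (Pi.single x 1) = φ (Pi.single y 1) := by
        intro x y hxy
        rw [hH] at hxy
        unfold und at hxy
        rw [SimpleGraph.fromRel_adj] at hxy
        obtain ⟨_, ⟨f, hf, hfe⟩ | ⟨f, hf, hfe⟩⟩ := hxy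
        · have h1 := hφ (inc ends f) (subset_span ⟨f, hf, rfl⟩)
          unfold inc at h1
          rw [map_add, hfe] at h1
          exact hchar2 _ _ h1
        · have h1 := hφ (inc ends f) (subset_span ⟨f, hf, rfl⟩)
          unfold inc at h1
          rw [map_add, hfe] at h1
          exact (hchar2 _ _ h1).symm
      have hw : ∀ (v w : Fin n) (p : H.Walk v w), p.IsPath →
          φ (Pi.single v 1) = φ (Pi.single w 1) := by
        intro v w p _
        have hp : ∀ (v w : Fin n) (p : H.Walk v w), φ (Pi.single v 1) = φ (Pi.single w 1) := by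
          intro v w p
          induction p with
          | nil => rfl
          | cons h _ ih => exact (hadj _ _ h).trans ih
        exact hp v w p
      refine ⟨SimpleGraph.ConnectedComponent.lift (fun z => φ (Pi.single z 1)) hw, ?_⟩
      apply LinearMap.pi_ext'
      intro z
      ext
      simp only [LinearMap.coe_comp, LinearMap.coe_single, Function.comp_apply]
      rw [hT]
      rfl
  have h1 := Subspace.finrank_add_finrank_dualAnnihilator_eq
    (span (ZMod 2) (inc ends '' (A : Set (Fin m))))
  rw [← hrange, LinearMap.finrank_range_of_inj hinj] at h1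
  rw [finrank_pi, finrank_pi, Fintype.card_fin] at h1
  rw [Nat.card_eq_fintype_card]
  exact h1

/-- the boundary map -/
noncomputable def bd (ends : Fin m → Fin n × Fin n) :
    (Fin m → ZMod 2) →ₗ[ZMod 2] (Fin n → ZMod 2) :=
  Fintype.linearCombination (ZMod 2) (inc ends)

/-- the vectors supported by `A` -/
noncomputable def U (m : ℕ) (A : Finset (Fin m)) : Submodule (ZMod 2) (Fin m → ZMod 2) :=
  span (ZMod 2) (Set.range fun e : A => (Pi.single (e : Fin m) 1 : Fin m → ZMod 2))

lemma mem_U {A : Finset (Fin m)} {x : Fin m → ZMod 2} : x ∈ U m A ↔ ∀ e, e ∉ A → x e = 0 := by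
  constructor
  · intro hx e he
    unfold U at hx
    induction hx using Submodule.span_induction with
    | mem x hx =>
      obtain ⟨f, rfl⟩ := hx
      have : e ≠ (f : Fin m) := fun h => he (h ▸ f.2)
      simp [this]
    | zero => rfl
    | add x y _ _ h1 h2 => rw [Pi.add_apply, h1, h2, add_zero]
    | smul c x _ h => rw [Pi.smul_apply, h, smul_zero]
  · intro hx
    have h1 : x = ∑ e, x e • (Pi.single e 1 : Fin m → ZMod 2) := by
      ext f
      simp [Finset.sum_apply, Pi.single_apply]
    rw [h1]
    refine Submodule.sum_mem _ fun e _ => ?_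
    by_cases he : e ∈ A
    · exact Submodule.smul_mem _ _ (subset_span ⟨⟨e, he⟩, rfl⟩)
    · rw [hx e he, zero_smul]
      exact Submodule.zero_mem _

lemma finrank_U (A : Finset (Fin m)) : finrank (ZMod 2) (U m A) = A.card := by
  unfold U
  have h1 : LinearIndependent (ZMod 2)
      (fun e : A => (Pi.single (e : Fin m) 1 : Fin m → ZMod 2)) := by
    have h2 := (Pi.basisFun (ZMod 2) (Fin m)).linearIndependent.comp
      (fun e : A => (e : Fin m)) Subtype.val_injective
    convert h2 using 2
    simp
  rw [finrank_span_eq_card h1]
  simp

lemma map_U (ends : Fin m → Fin n × Fin n) (A : Finset (Fin m)) :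
    (U m A).map (bd ends) = span (ZMod 2) (inc ends '' (A : Set (Fin m))) := by
  unfold U
  rw [Submodule.map_span]
  congr 1
  ext x
  constructor
  · rintro ⟨_, ⟨e, rfl⟩, rfl⟩
    refine ⟨e, e.2, ?_⟩
    unfold bd
    rw [Fintype.linearCombination_apply_single]
    simp
  · rintro ⟨e, he, rfl⟩
    refine ⟨_, ⟨⟨e, he⟩, rfl⟩, ?_⟩
    unfold bd
    rw [Fintype.linearCombination_apply_single]
    simp

/-- the nullity -/
lemma nullity (ends : Fin m → Fin n × Fin n) (A : Finset (Fin m)) :
    finrank (ZMod 2) ↥(U m A ⊓ LinearMap.ker (bd ends)) + n =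
      A.card + Nat.card (und ends A).ConnectedComponent := by
  have h1 := LinearMap.finrank_range_add_finrank_ker ((bd ends).domRestrict (U m A))
  rw [finrank_U] at h1
  have h2 : LinearMap.range ((bd ends).domRestrict (U m A)) =
      span (ZMod 2) (inc ends '' (A : Set (Fin m))) := by
    rw [← map_U]
    ext x
    simp [LinearMap.mem_range, Submodule.mem_map]
  have h3 : finrank (ZMod 2) ↥(LinearMap.ker ((bd ends).domRestrict (U m A))) =
      finrank (ZMod 2) ↥(U m A ⊓ LinearMap.ker (bd ends)) := by
    have h4 : LinearMap.ker ((bd ends).domRestrict (U m A)) =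
        (LinearMap.ker (bd ends)).comap (U m A).subtype := by
      ext x
      simp
    rw [h4, ← Submodule.map_comap_subtype, Submodule.finrank_map_subtype_eq]
  rw [h2, h3] at h1
  have h5 := finrank_inc ends A
  omega

end Pool.Agent.Y358.MM.Flow
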