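import Pool.Agent.Y358.MM.Sum

/-!
# Positivity of characteristic polynomials of vector configurations on a half line
-/

set_option autoImplicit false

namespace Pool.Agent.Y358.MM

open Module Submodule

variable {K W : Type*} [Field K] [AddCommGroup W] [Module K W] [FiniteDimensional K W]

/-- Everything that is used about the configurations on the hyperplane (real version). -/
structure HypR (q : ℝ) (U M : ℕ → ℝ) (n : ℕ) (V : Submodule K W) (E R : List W) : Prop where
  pos : 0 < T q n E (⊥ : Submodule K W)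
  up : ∀ L : List W, (∀ x ∈ L, x ∈ V ∧ x ∈ span K {y | y ∈ R}) →
    T q n (L ++ E) (⊥ : Submodule K W) ≤ U L.length * T q n E (⊥ : Submodule K W)
  lo : ∀ L : List W, (∀ x ∈ L, x ∈ V ∧ x ∈ span K {y | y ∈ R}) → (0 : W) ∉ L →
    -(M L.length * T q n E (⊥ : Submodule K W)) ≤ T q n (L ++ E) (⊥ : Submodule K W)

lemma lowR (q : ℝ) (U M : ℕ → ℝ) (φ : W →ₗ[K] K) {V : Submodule K W} {E' R' : List W}
    (hV : ¬ V ≤ LinearMap.ker φ) (hE'V : ∀ x ∈ E', x ∈ V) (hE' : ∀ x ∈ E', φ x = 0)
    (ih : HypR q U M (finrank K ↥(V ⊓ LinearMap.ker φ)) (V ⊓ LinearMap.ker φ) E' R')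
    (B : List W) (hB : ∀ x ∈ B, x ∈ V ∧ φ x ≠ 0 ∧ x ∈ span K {y | y ∈ R'}) :
    (q - ∑ i ∈ Finset.range B.length, U i) *
      T q (finrank K ↥(V ⊓ LinearMap.ker φ)) E' (⊥ : Submodule K W) ≤
      T q (finrank K V) (B ++ E') (⊥ : Submodule K W) := by
  have hfr := finrank_inf_ker φ V hV
  set n := finrank K ↥(V ⊓ LinearMap.ker φ) with hn
  have hmul : T q (n + 1) E' (⊥ : Submodule K W) = q * T q n E' (⊥ : Submodule K W) := by
    rw [hn]
    exact T_mul q (V := V ⊓ LinearMap.ker φ) E'
      (fun x hx => ⟨hE'V x hx, LinearMap.mem_ker.2 (hE' x hx)⟩) ⊥ bot_le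
  rw [← hfr]
  induction B with
  | nil =>
    rw [List.nil_append, hmul]
    simp
  | cons b B hind =>
    obtain ⟨hbV, hb, hbR⟩ := hB b List.mem_cons_self
    have hB' : ∀ x ∈ B, x ∈ V ∧ φ x ≠ 0 ∧ x ∈ span K {y | y ∈ R'} :=
      fun x hx => hB x (List.mem_cons_of_mem _ hx)
    rw [List.cons_append, T_cons, T_contract q n φ hb B hE']
    have h2 : T q n (B.map (pr φ b) ++ E') (⊥ : Submodule K W) ≤
        U B.length * T q n E' (⊥ : Submodule K W) := by
      have := ih.up (B.map (pr φ b)) (by
        intro x hx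
        obtain ⟨y, hy, rfl⟩ := List.mem_map.1 hx
        exact ⟨⟨pr_mem (hB' y hy).1 hbV, pr_ker φ hb y⟩, pr_mem (hB' y hy).2.2 hbR⟩)
      rwa [List.length_map] at this
    have h4 := hind hB'
    rw [List.length_cons, Finset.sum_range_succ]
    linarith

/-- **Main estimate, real version.** -/
theorem mainR (q : ℝ) (U M : ℕ → ℝ) (ρ : ℝ) (D : ℕ) (hU0 : U 0 = 1) (hM0 : M 0 = -1)
    (hUm : Monotone U) (hMm : Monotone M) (hρ : 0 < ρ)
    (hρq : ρ = q - ∑ i ∈ Finset.range D, U i) (hρD : U D < ρ)
    (hU : ∀ s, max (M (s + D)) 0 ≤ ρ * (U (s + 1) - U s))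
    (hM : ∀ s, U (s + D) ≤ ρ * (M (s + 1) - M s))
    (P : Set (W →ₗ[K] K)) (n : ℕ) :
    ∀ (V : Submodule K W) (E R : List W), finrank K V = n → (∀ x ∈ E, x ∈ V) →
      (∀ x ∈ E, x ≠ 0) → (∀ u ∈ V, u ≠ 0 → ∃ φ ∈ P, φ u ≠ 0) →
      (∀ φ ∈ P, ∀ p : W → Bool, (∀ x, p x = true ↔ φ x ≠ 0) →
        E.countP p + R.countP p ≤ D + 1) →
      HypR q U M n V E R := by
  classical
  have hUpos : ∀ s, 0 < U s := fun s => by
    have := hUm (Nat.zero_le s)
    rw [hU0] at this
    linarith
  induction n with
  | zero =>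
    intro V E R hV hE hE0 _ _
    have hVbot : V = ⊥ := finrank_eq_zero.1 hV
    have hEe : E = [] := by
      rw [List.eq_nil_iff_forall_not_mem]
      intro x hx
      have := hE x hx
      rw [hVbot, mem_bot] at this
      exact hE0 x hx this
    subst hEe
    have hx0 : ∀ (x : W) (L : List W), (∀ y ∈ x :: L, y ∈ V ∧ y ∈ span K {y | y ∈ R}) →
        x = 0 := by
      intro x L h
      have := (h x List.mem_cons_self).1
      rwa [hVbot, mem_bot] at this
    refine ⟨by rw [T_nil]; simp, ?_, ?_⟩
    · intro L hL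
      rcases L with _ | ⟨x, L⟩
      · simp [hU0]
      · rw [T_of_mem_zero q 0 (by rw [hx0 x L hL]; simp), T_nil]
        have := hUpos (x :: L).length
        simp only [finrank_bot]
        simpa using this.le
    · intro L hL h0
      rcases L with _ | ⟨x, L⟩
      · simp [hM0]
      · exact absurd (by rw [hx0 x L hL]; simp) h0
  | succ n ih =>
    intro V E R hV hE hE0 hP hk
    have key : ∀ φ ∈ P, ¬ V ≤ LinearMap.ker φ → ∃ A E' : List W,
        E.Perm (A ++ E') ∧ (∀ x ∈ E', φ x = 0) ∧ (∀ x ∈ A, φ x ≠ 0) ∧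
        finrank K ↥(V ⊓ LinearMap.ker φ) = n ∧
        HypR q U M (finrank K ↥(V ⊓ LinearMap.ker φ)) (V ⊓ LinearMap.ker φ) E' (A ++ R) ∧
        A.length ≤ D + 1 ∧ ((∃ x ∈ R, φ x ≠ 0) → A.length ≤ D) := by
      intro φ hφ hφV
      have hfr := finrank_inf_ker φ V hφV
      have hn : finrank K ↥(V ⊓ LinearMap.ker φ) = n := by omega
      set p : W → Bool := fun x => decide (φ x ≠ 0) with hp
      have hpx : ∀ x, p x = true ↔ φ x ≠ 0 := fun x => by simp [hp]
      have hcount := hk φ hφ p hpx
      refine ⟨E.filter p, E.filter (fun x => !p x), (List.filter_append_perm p E).symm, ?_, ?_,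
        hn, ?_, ?_, ?_⟩
      · intro x hx
        have := (List.mem_filter.1 hx).2
        by_contra h
        rw [(hpx x).2 h] at this
        simp at this
      · intro x hx
        exact (hpx x).1 (List.mem_filter.1 hx).2
      · rw [hn]
        apply ih _ _ _ hn
        · intro x hx
          have h1 := List.mem_filter.1 hx
          refine ⟨hE x h1.1, LinearMap.mem_ker.2 ?_⟩
          by_contra h
          have h2 := h1.2
          rw [(hpx x).2 h] at h2
          simp at h2
        · intro x hx
          exact hE0 x (List.mem_filter.1 hx).1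
        · intro u hu hu0
          exact hP u hu.1 hu0
        · intro ψ hψ r hr
          have h1 := hk ψ hψ r hr
          have h2 : (E.filter p ++ E.filter (fun x => !p x)).countP r = E.countP r :=
            (List.filter_append_perm p E).countP_eq r
          rw [List.countP_append] at h2
          rw [List.countP_append]
          omega
      · rw [← List.countP_eq_length_filter]
        omega
      · rintro ⟨x, hxR, hx⟩
        have h1 : 0 < R.countP p := List.countP_pos_iff.2 ⟨x, hxR, (hpx x).2 hx⟩
        rw [← List.countP_eq_length_filter]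
        omega
    have lowA : ∀ φ ∈ P, ¬ V ≤ LinearMap.ker φ → ∀ A E' : List W,
        E.Perm (A ++ E') → (∀ x ∈ E', φ x = 0) → (∀ x ∈ A, φ x ≠ 0) →
        HypR q U M (finrank K ↥(V ⊓ LinearMap.ker φ)) (V ⊓ LinearMap.ker φ) E' (A ++ R) →
        (q - ∑ i ∈ Finset.range A.length, U i) *
          T q (finrank K ↥(V ⊓ LinearMap.ker φ)) E' (⊥ : Submodule K W) ≤
          T q (finrank K V) E (⊥ : Submodule K W) := by
      intro φ _ hφV A E' hperm hE' hA hyp
      have hEV : ∀ x ∈ A ++ E', x ∈ V := fun x hx => hE x (hperm.mem_iff.2 hx)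
      have := lowR q U M φ hφV (fun x hx => hEV x (List.mem_append_right _ hx)) hE' hyp A
        (fun x hx => ⟨hEV x (List.mem_append_left _ hx), hA x hx,
          subset_span (by simp [hx])⟩)
      rwa [T_perm q (finrank K V) hperm]
    have hsum : ∀ i j : ℕ, i ≤ j →
        ∑ t ∈ Finset.range i, U t ≤ ∑ t ∈ Finset.range j, U t := fun i j hij =>
      Finset.sum_le_sum_of_subset_of_nonneg (Finset.range_mono hij)
        fun t _ _ => (hUpos t).le
    have hVne : V ≠ ⊥ := by
      rintro rfl
      simp at hV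
    obtain ⟨u0, hu0V, hu0⟩ := exists_mem_ne_zero_of_ne_bot hVne
    have hpos0 : 0 < T q (n + 1) E (⊥ : Submodule K W) := by
      obtain ⟨φ, hφ, hφu⟩ := hP u0 hu0V hu0
      have hφV : ¬ V ≤ LinearMap.ker φ := fun h => hφu (LinearMap.mem_ker.1 (h hu0V))
      obtain ⟨A, E', hperm, hE', hA, hn, hyp, hlen, _⟩ := key φ hφ hφV
      have h1 := lowA φ hφ hφV A E' hperm hE' hA hyp
      rw [← hV]
      refine lt_of_lt_of_le ?_ h1
      apply mul_pos _ hyp.pos
      have h2 := hsum _ _ hlen
      rw [Finset.sum_range_succ] at h2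
      linarith
    -- the step
    have step : ∀ (w : W) (L : List W), w ≠ 0 →
        (∀ x ∈ w :: L, x ∈ V ∧ x ∈ span K {y | y ∈ R}) →
        ∃ t z' : ℝ, T q (n + 1) (w :: L ++ E) (⊥ : Submodule K W) =
          T q (n + 1) (L ++ E) (⊥ : Submodule K W) - t ∧ 0 < z' ∧
          ρ * z' ≤ T q (n + 1) E (⊥ : Submodule K W) ∧
          t ≤ U (L.length + D) * z' ∧ -(max (M (L.length + D)) 0 * z') ≤ t := by
      intro w L hw0 hL
      have hL' : ∀ x ∈ L, x ∈ V ∧ x ∈ span K {y | y ∈ R} :=
        fun x hx => hL x (List.mem_cons_of_mem _ hx)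
      obtain ⟨hwV, hwR⟩ := hL w List.mem_cons_self
      obtain ⟨φ, hφ, hφw⟩ := hP w hwV hw0
      have hφV : ¬ V ≤ LinearMap.ker φ := fun h => hφw (LinearMap.mem_ker.1 (h hwV))
      obtain ⟨A, E', hperm, hE', hA, hn, hyp, _, hlen⟩ := key φ hφ hφV
      have h1 := lowA φ hφ hφV A E' hperm hE' hA hyp
      have hex : ∃ x ∈ R, φ x ≠ 0 := by
        by_contra hcon
        push Not at hcon
        apply hφw
        have : span K {y | y ∈ R} ≤ LinearMap.ker φ := by
          rw [span_le]
          intro y hy
          exact LinearMap.mem_ker.2 (hcon y hy)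
        exact LinearMap.mem_ker.1 (this hwR)
      have hlenA := hlen hex
      have hEV : ∀ x ∈ A ++ E', x ∈ V := fun x hx => hE x (hperm.mem_iff.2 hx)
      have hperm2 : (L ++ E).Perm ((L ++ A) ++ E') := by
        rw [List.append_assoc]
        exact hperm.append_left L
      have hRle : span K {y | y ∈ R} ≤ span K {y | y ∈ A ++ R} :=
        span_mono fun y hy => List.mem_append_right A hy
      have hmem : ∀ x ∈ (L ++ A).map (pr φ w), x ∈ V ⊓ LinearMap.ker φ ∧
          x ∈ span K {y | y ∈ A ++ R} := by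
        intro x hx
        obtain ⟨y, hy, rfl⟩ := List.mem_map.1 hx
        have hy2 : y ∈ V ∧ y ∈ span K {y | y ∈ A ++ R} := by
          rcases List.mem_append.1 hy with hy | hy
          · exact ⟨(hL' y hy).1, hRle (hL' y hy).2⟩
          · exact ⟨hEV y (List.mem_append_left _ hy),
              subset_span (List.mem_append_left _ hy)⟩
        exact ⟨⟨pr_mem hy2.1 hwV, pr_ker φ hφw y⟩, pr_mem hy2.2 (hRle hwR)⟩
      have hlen2 : ((L ++ A).map (pr φ w)).length ≤ L.length + D := by
        rw [List.length_map, List.length_append]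
        omega
      refine ⟨T q (finrank K ↥(V ⊓ LinearMap.ker φ)) ((L ++ A).map (pr φ w) ++ E')
          (⊥ : Submodule K W), T q (finrank K ↥(V ⊓ LinearMap.ker φ)) E' (⊥ : Submodule K W),
          ?_, hyp.pos, ?_, ?_, ?_⟩
      · rw [List.cons_append, T_cons, T_perm q (n + 1) hperm2 (⊥ ⊔ span K {w}), hn,
          T_contract q n φ hφw (L ++ A) hE']
      · rw [← hV]
        refine le_trans ?_ h1
        apply mul_le_mul_of_nonneg_right _ hyp.pos.le
        have := hsum _ _ hlenA
        linarith
      · exact (hyp.up _ hmem).trans (mul_le_mul_of_nonneg_right (hUm hlen2) hyp.pos.le)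
      · by_cases h0 : (0 : W) ∈ (L ++ A).map (pr φ w)
        · rw [T_of_mem_zero q _ (List.mem_append_left _ h0)]
          have : 0 ≤ max (M (L.length + D)) 0 := le_max_right _ _
          have := mul_nonneg this hyp.pos.le
          linarith
        · have h3 := hyp.lo _ hmem h0
          have h4 : M ((L ++ A).map (pr φ w)).length ≤ max (M (L.length + D)) 0 :=
            (hMm hlen2).trans (le_max_left _ _)
          have h5 := mul_le_mul_of_nonneg_right h4 hyp.pos.le
          linarith
    refine ⟨hpos0, ?_, ?_⟩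
    · intro L
      induction L with
      | nil => intro _; simp [hU0]
      | cons w L hind =>
        intro hL
        have hind' := hind fun x hx => hL x (List.mem_cons_of_mem _ hx)
        by_cases hw0 : w = 0
        · rw [T_of_mem_zero q _ (by rw [hw0]; simp)]
          exact mul_nonneg (hUpos _).le hpos0.le
        obtain ⟨t, z', h1, h2, h3, h4, h5⟩ := step w L hw0 hL
        rw [h1, List.length_cons]
        have h6 := hU L.length
        have h7 : 0 ≤ U (L.length + 1) - U L.length := by
          have := hUm (Nat.le_succ L.length)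
          linarith
        have h8 : max (M (L.length + D)) 0 * z' ≤
            (U (L.length + 1) - U L.length) * T q (n + 1) E (⊥ : Submodule K W) := by
          calc max (M (L.length + D)) 0 * z' ≤ ρ * (U (L.length + 1) - U L.length) * z' :=
                mul_le_mul_of_nonneg_right h6 h2.le
            _ = (U (L.length + 1) - U L.length) * (ρ * z') := by ring
            _ ≤ _ := mul_le_mul_of_nonneg_left h3 h7
        linarith
    · intro L
      induction L with
      | nil => intro _ _; simp [hM0]
      | cons w L hind =>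
        intro hL h0
        have hw0 : w ≠ 0 := fun h => h0 (by rw [h]; simp)
        have hind' := hind (fun x hx => hL x (List.mem_cons_of_mem _ hx))
          (fun h => h0 (List.mem_cons_of_mem _ h))
        obtain ⟨t, z', h1, h2, h3, h4, h5⟩ := step w L hw0 hL
        rw [h1, List.length_cons]
        have h6 := hM L.length
        have h7 : 0 ≤ M (L.length + 1) - M L.length := by
          have := hMm (Nat.le_succ L.length)
          linarith
        have h8 : U (L.length + D) * z' ≤
            (M (L.length + 1) - M L.length) * T q (n + 1) E (⊥ : Submodule K W) := by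
          calc U (L.length + D) * z' ≤ ρ * (M (L.length + 1) - M L.length) * z' :=
                mul_le_mul_of_nonneg_right h6 h2.le
            _ = (M (L.length + 1) - M L.length) * (ρ * z') := by ring
            _ ≤ _ := mul_le_mul_of_nonneg_left h3 h7
        linarith

end Pool.Agent.Y358.MM
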