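import Pool.Agent.Y358.MM.Core

/-!
The recursive sum `T` is the sum over all subsets.
-/

set_option autoImplicit false

namespace Pool.Agent.Y358.MM

open Module Submodule

variable {K W ι : Type*} [Field K] [AddCommGroup W] [Module K W] [DecidableEq ι]
  {A : Type*} [CommRing A]

lemma T_eq_sum (q : A) (n : ℕ) (a : ι → W) (l : List ι) (hl : l.Nodup) :
    ∀ S : Submodule K W, T q n (l.map a) S = ∑ X ∈ l.toFinset.powerset,
      (-1 : A) ^ X.card * q ^ (n - finrank K ↥(S ⊔ span K (a '' (X : Set ι)))) := by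
  induction l with
  | nil =>
    intro S
    rw [List.map_nil, T_nil, List.toFinset_nil, Finset.powerset_empty, Finset.sum_singleton,
      Finset.card_empty, pow_zero, one_mul, Finset.coe_empty, Set.image_empty, span_empty,
      sup_bot_eq]
  | cons i l ih =>
    intro S
    rw [List.nodup_cons] at hl
    have hi : i ∉ l.toFinset := by simpa using hl.1
    rw [List.map_cons, T_cons, ih hl.2, ih hl.2, List.toFinset_cons,
      Finset.sum_powerset_insert hi, sub_eq_add_neg, ← Finset.sum_neg_distrib]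
    congr 1
    refine Finset.sum_congr rfl fun X hX => ?_
    have hiX : i ∉ X := fun h => hi (Finset.mem_powerset.1 hX h)
    have h1 : S ⊔ span K {a i} ⊔ span K (a '' (X : Set ι)) =
        S ⊔ span K (a '' ((insert i X : Finset ι) : Set ι)) := by
      rw [Finset.coe_insert, Set.image_insert_eq, span_insert, sup_assoc]
    rw [h1, Finset.card_insert_of_notMem hiX, pow_succ]
    ring

lemma T_eq_sum' (q : A) (n : ℕ) (a : ι → W) (E : Finset ι) :
    T q n (E.toList.map a) (⊥ : Submodule K W) = ∑ X ∈ E.powerset,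
      (-1 : A) ^ X.card * q ^ (n - finrank K ↥(span K (a '' (X : Set ι)))) := by
  rw [T_eq_sum q n a E.toList E.nodup_toList, Finset.toList_toFinset]
  refine Finset.sum_congr rfl fun X _ => ?_
  rw [bot_sup_eq]

lemma countP_map_toList (a : ι → W) (E : Finset ι) (φ : W →ₗ[K] K) (p : W → Bool)
    (hp : ∀ x, p x = true ↔ φ x ≠ 0) :
    (E.toList.map a).countP p = ({j ∈ (E : Set ι) | φ (a j) ≠ 0}).ncard := by
  classical
  rw [List.countP_map, List.countP_eq_length_filter]
  have h1 : (E.toList.filter (p ∘ a)).length = (E.filter fun j => φ (a j) ≠ 0).card := by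
    rw [← List.toFinset_card_of_nodup (E.nodup_toList.filter _)]
    congr 1
    ext j
    simp [hp]
  rw [h1, ← Set.ncard_coe_finset]
  congr 1
  ext j
  simp

variable [FiniteDimensional K W]

/-- **Zero-free region.** -/
theorem config (P : Set (W →ₗ[K] K)) (a : ι → W) (D : ℕ) (hD : 1 ≤ D) (c : ℝ) (hc : 1 < c)
    (hc2 : c < 2) (q : ℂ) (hq : 2 * c ^ D - c ≤ (c - 1) * ‖q - 1‖) (V : Submodule K W)
    (E : Finset ι) (hE : ∀ j ∈ E, a j ∈ V) (hE0 : ∀ j ∈ E, a j ≠ 0)
    (hP : ∀ u ∈ V, u ≠ 0 → ∃ φ ∈ P, φ u ≠ 0)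
    (hk : ∀ φ ∈ P, ({j ∈ (E : Set ι) | φ (a j) ≠ 0}).ncard ≤ D + 1) :
    ∑ X ∈ E.powerset, (-1 : ℂ) ^ X.card *
      q ^ (finrank K V - finrank K ↥(span K (a '' (X : Set ι)))) ≠ 0 := by
  rw [← T_eq_sum' q (finrank K V) a E]
  refine (main q c hc hc2 D hD hq P (finrank K V) V (E.toList.map a) [] rfl ?_ ?_ hP ?_).ne
  · intro x hx
    obtain ⟨j, hj, rfl⟩ := List.mem_map.1 hx
    exact hE j (Finset.mem_toList.1 hj)
  · intro x hx
    obtain ⟨j, hj, rfl⟩ := List.mem_map.1 hx
    exact hE0 j (Finset.mem_toList.1 hj)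
  · intro φ hφ p hp
    rw [countP_map_toList a E φ p hp, List.countP_nil, add_zero]
    exact hk φ hφ

/-- The numerical form of the condition. -/
lemma numeric (D : ℕ) (hD : 1 ≤ D) (r : ℝ) (hr : 4.3111 * (D : ℝ) - 1 ≤ r) :
    ∃ c : ℝ, 1 < c ∧ c < 2 ∧ 2 * c ^ D - c ≤ (c - 1) * r := by
  have hD0 : (1 : ℝ) ≤ D := by exact_mod_cast hD
  have hDpos : (0 : ℝ) < D := by linarith
  refine ⟨1 + 0.768 / D, ?_, ?_, ?_⟩
  · have : (0 : ℝ) < 0.768 / D := by positivity
    linarith
  · have : (0.768 : ℝ) / D ≤ 0.768 := div_le_self (by norm_num) hD0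
    linarith
  · have h1 : (1 + 0.768 / (D : ℝ)) ^ D ≤ Real.exp 0.768 := by
      have h2 : 1 + 0.768 / (D : ℝ) ≤ Real.exp (0.768 / D) := by
        have := Real.add_one_le_exp (0.768 / (D : ℝ))
        linarith
      calc (1 + 0.768 / (D : ℝ)) ^ D ≤ Real.exp (0.768 / D) ^ D :=
            pow_le_pow_left₀ (by positivity) h2 D
        _ = Real.exp 0.768 := by
            rw [← Real.exp_nat_mul]
            congr 1
            field_simp
    have h3 : Real.exp 0.768 ≤ 2.15546 := by
      have h4 := Real.exp_bound' (x := 0.768) (by norm_num) (by norm_num) (n := 8) (by norm_num)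
      refine h4.trans ?_
      norm_num [Finset.sum_range_succ, Nat.factorial]
    have h5 : (1 + 0.768 / (D : ℝ) - 1) * r ≥ 0.768 * 4.3111 - 0.768 / D := by
      have h6 : (1 + 0.768 / (D : ℝ) - 1) * r ≥ 0.768 / D * (4.3111 * (D : ℝ) - 1) := by
        have h7 : 1 + 0.768 / (D : ℝ) - 1 = 0.768 / D := by ring
        rw [h7]
        exact mul_le_mul_of_nonneg_left hr (by positivity)
      have h8 : 0.768 / (D : ℝ) * (4.3111 * (D : ℝ) - 1) = 0.768 * 4.3111 - 0.768 / D := by
        field_simp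
      linarith
    linarith

end Pool.Agent.Y358.MM
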